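import Pool.Agent.K1H74.BB.Main

/-!
# Comparison with Chow-Kunneth decompositions, multiplicativity
-/

set_option autoImplicit false

open CategoryTheory AlgebraicGeometry

universe u v w

namespace Pool.Agent.K1H74.BB

open Pool.Agent.H914 Pool.Agent.H914.VarClass Pool.Agent.H914.VarClass.Obj Pool.Agent.W492.BB
  Pool.Agent.W550.Corr Pool.Agent.TH133 Pool.Agent.Y148.BB

set_option linter.unusedSectionVars false
set_option linter.unusedVariables false

variable {k : Type u} [Field k] {𝒱 : VarClass k}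

variable {C : TheoryData.{u, v, 0} 𝒱 ℚ} [hC : IsChowProj C] {K : Type w} [Field K]
  {H : WeilTheoryData.{u, v, w} C K} [hH : IsWeilProj H] {X Y Z W T P S A B P' : 𝒱.Obj}
  {𝒲 : 𝒱.Obj → Prop} {d : ℕ∞} {N : ∀ X : 𝒱.Obj, ℕ → Submodule ℚ (C.A X)}
  {F : ∀ X : 𝒱.Obj, ℕ → ℕ → Submodule ℚ (C.A X)} {R : 𝒱.Obj → Prop}

include hC hH

/-- A Bloch-Beilinson filtration is the filtration attached to any Chow-Kunneth decomposition. -/
theorem eq_ckFil (hF : IsWeakOn H R F) (hX : R X) {π : ℕ → C.A (X.prod X)}
    (hπ : IsCK H X π) (j ν : ℕ) : F X j ν = ckFil C π j ν := by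
  have hanti : ∀ {ν μ : ℕ}, ν ≤ μ → F X j μ ≤ F X j ν := by
    intro ν μ h
    induction μ, h using Nat.le_induction with
    | base => exact le_rfl
    | succ μ _ ih => exact (hF.anti X hX j μ).trans ih
  have e : ((X.dim : ℤ) + j - j) = X.dim := by ring
  have hst : ∀ (w ν : ℕ), ∀ z ∈ F X j ν, C.act (π w) z ∈ F X j ν := fun w ν z hz =>
    hF.stable X X hX hX j j ν (π w) (by rw [e]; exact hπ.deg w) z hz
  have hsh : ∀ (w ν : ℕ), w + ν ≠ 2 * j → ∀ z ∈ F X j ν, C.act (π w) z ∈ F X j (ν + 1) := by
    intro w ν h z hz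
    refine hF.shift X X hX hX j j ν (π w) (by rw [e]; exact hπ.deg w) ?_ z hz
    intro a ha
    exact hπ.act_ne w _ a (by omega) ha
  have hid : ∀ (w : ℕ) (z : C.A X), C.act (π w) (C.act (π w) z) = C.act (π w) z :=
    fun w z => act_idem (hπ.idem w) z
  ext z
  rw [hπ.mem_ckFil]
  constructor
  · intro hz
    refine ⟨(hF.zero X hX j z).1 (hanti (Nat.zero_le ν) hz), fun w hw => ?_⟩
    have key : ∀ m : ℕ, C.act (π w) z ∈ F X j (ν + m) := by
      intro m
      induction m with
      | zero => exact hst w ν z hz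
      | succ m ih =>
        rw [← hid]
        exact hsh w (ν + m) (by omega) _ ih
    have h1 := hanti (show j + 1 ≤ ν + (j + 1) by omega) (key (j + 1))
    rw [hF.top X hX j] at h1
    exact (Submodule.mem_bot _).1 h1
  · rintro ⟨hz, h⟩
    have h0 : z = ∑ w ∈ Finset.range (2 * X.dim + 1), C.act (π w) z := by
      rw [← act_sum, hπ.sum, act_dg]
    rw [h0]
    refine Submodule.sum_mem _ fun w _ => ?_
    by_cases hw : 2 * j + 1 - ν ≤ w
    · rw [h w hw]
      exact Submodule.zero_mem _
    · have key : ∀ m : ℕ, m ≤ ν → C.act (π w) z ∈ F X j m := by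
        intro m
        induction m with
        | zero => exact fun _ => hst w 0 z ((hF.zero X hX j z).2 hz)
        | succ m ih =>
          intro hm
          rw [← hid]
          exact hsh w m (by omega) _ (ih (by omega))
      exact key ν le_rfl

/-- **Multiplicativity.** -/
theorem mul_mem (h𝒲 : Generated 𝒲 H) (hF : IsWeakOn H (BuiltFrom 𝒲 H ⊤) F)
    (hX : BuiltFrom 𝒲 H ⊤ X)
    {j j' ν ν' : ℕ} {z z' : C.A X} (hz : z ∈ F X j ν) (hz' : z' ∈ F X j' ν') :
    C.mul z z' ∈ F X (j + j') (ν + ν') := by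
  have hdz : C.Deg j z := (hF.zero X hX j z).1 (F_anti hF hX j (Nat.zero_le _) hz)
  have hdz' : C.Deg j' z' := (hF.zero X hX j' z').1 (F_anti hF hX j' (Nat.zero_le _) hz')
  have hmulC : ∀ {j j' ν : ℕ} {z z' : C.A X}, C.Deg j z → z' ∈ F X j' ν →
      C.mul z z' ∈ F X (j + j') ν := by
    intro j j' ν z z' hz hz'
    have h1 := hF.stable X X hX hX j' (j + j') ν (C.mulCorr z) ?_ z' hz'
    · rwa [C.act_mulCorr] at h1
    · have h := C.push_mem (Obj.lift (𝟙 X) (𝟙 X)) hz
      have e1 : (j : ℤ) + 1 * (((X.prod X).dim : ℤ) - (X.dim : ℤ)) =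
          X.dim + ((j + j' : ℕ) : ℤ) - j' := by
        rw [dim_prod]; push_cast; ring
      rwa [e1] at h
  by_cases hν : ν = 0
  · subst hν
    rw [zero_add]
    exact hmulC hdz hz'
  by_cases hν' : ν' = 0
  · subst hν'
    have e : C.mul z z' = C.mul z' z := ch_comm C z z'
    rw [add_zero, e, add_comm j j']
    exact hmulC hdz' hz
  have hXX : BuiltFrom 𝒲 H ⊤ (X.prod X) := by
    have h1 := built_prod hX hX
    rwa [top_add] at h1
  rw [eq_fil h𝒲 hF hX] at hz hz'
  -- the external product
  have hext : C.ext z z' ∈ F (X.prod X) (j + j') (ν + ν') := by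
    let L1 : C.A X →ₗ[ℚ] C.A (X.prod X) :=
      (LinearMap.mulRight ℚ (C.pull (snd X X) z')) ∘ₗ (C.pull (fst X X)).toLinearMap
    have h1 := dec_mem hX L1 (F (X.prod X) (j + j') (ν + ν')) z ?_ ?_
    · exact h1
    · intro n P p a f g hP hn hf hg
      change C.ext (C.act g (C.act p (C.act f z))) z' ∈ _
      have hp := hP.piece
      rcases comp_of_fil hP hn hf hz with h | ⟨i, rfl, h1, h2⟩
      · rw [h, TheoryData.act_map_zero, TheoryData.ext_zero_left]
        exact Submodule.zero_mem _
      let y := C.act p (C.act f z)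
      have hy : y ∈ C.gr P i := act_mem0 C hp.mem h2
      have hyp : C.act p y = y := act_idem hp.idem _
      change C.ext (C.act g y) z' ∈ _
      let L2 : C.A X →ₗ[ℚ] C.A (X.prod X) :=
        (LinearMap.mulLeft ℚ (C.pull (fst X X) (C.act g y))) ∘ₗ (C.pull (snd X X)).toLinearMap
      have h3 := dec_mem hX L2 (F (X.prod X) (a + i + j') (ν + ν')) z' ?_ ?_
      · exact h3
      · intro n' P' p' a' f' g' hP' hn' hf' hg'
        change C.ext (C.act g y) (C.act g' (C.act p' (C.act f' z'))) ∈ _
        have hp' := hP'.piece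
        rcases comp_of_fil hP' hn' hf' hz' with h | ⟨i', rfl, h1', h2'⟩
        · rw [h, TheoryData.act_map_zero, TheoryData.ext_zero_right]
          exact Submodule.zero_mem _
        let y' := C.act p' (C.act f' z')
        have hy' : y' ∈ C.gr P' i' := act_mem0 C hp'.mem h2'
        have hyp' : C.act p' y' = y' := act_idem hp'.idem _
        change C.ext (C.act g y) (C.act g' y') ∈ _
        obtain ⟨E, e, φ, ψ, hE, k1, k2, k3⟩ := exists_prod hP hP'
        have hdim : (E.dim : ℤ) = ((P.prod P').dim : ℤ) := by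
          rw [dim_prod, hE.piece.dim, hP.piece.dim, hP'.piece.dim]
        have hB := hE.built h𝒲 (d := ⊤) le_top
        let u := C.push φ (C.ext y y')
        have hu : u ∈ C.gr E ((i + i' : ℕ) : ℤ) := by
          have := C.push_mem φ (ext_mem' hy hy')
          rw [hdim, sub_self, mul_zero, add_zero] at this
          push_cast
          exact this
        have hue : C.act e u = u := by
          change C.act e (C.push φ (C.ext y y')) = C.push φ (C.ext y y')
          rw [← C.act_graph, ← C.act_comp, ← k3, C.act_comp,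
            act_tens_ext C _ _ (fun f c => ch_comm C _ _), hyp, hyp']
        have hu1 := (F_part hF hE.piece hB hue).2 (ν + ν') (by push_cast; omega) hu
        have hΓ : C.comp (C.graph ψ) (tens C g g') ∈
            C.gr (E.prod (X.prod X)) ((E.dim : ℤ) + (a + i + (a' + i') : ℕ) - (i + i' : ℕ)) := by
          refine comp_degc (graph_memc ψ) (tens_mem C hg hg') ?_
          rw [hdim, dim_prod]
          push_cast
          ring
        have h5 := hF.stable E (X.prod X) hB hXX (i + i') (a + i + (a' + i')) (ν + ν') _ hΓ u hu1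
        have h6 : C.act (C.comp (C.graph ψ) (tens C g g')) u =
            C.ext (C.act g y) (C.act g' y') := by
          change C.act (C.comp (C.graph ψ) (tens C g g')) (C.push φ (C.ext y y')) = _
          rw [C.act_comp, C.act_graph, ← C.push_comp, k1, C.push_id,
            act_tens_ext C _ _ (fun f c => ch_comm C _ _)]
        rw [h6] at h5
        exact h5
      · intro b x x' hx hx'
        change C.ext (C.act g y) (C.act (C.ext x x') z') ∈ _
        rw [act_ext_hom hx hz'.1 (hz'.2.1 (by omega)), TheoryData.ext_zero_right]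
        exact Submodule.zero_mem _
    · intro b x x' hx hx'
      change C.ext (C.act (C.ext x x') z) z' ∈ _
      rw [act_ext_hom hx hz.1 (hz.2.1 (by omega)), TheoryData.ext_zero_left]
      exact Submodule.zero_mem _
  have h1 := hF.stable (X.prod X) X hXX hX (j + j') (j + j') (ν + ν')
    (C.cograph (Obj.lift (𝟙 X) (𝟙 X))) ?_ _ hext
  · rw [C.act_cograph] at h1
    have e : C.pull (Obj.lift (𝟙 X) (𝟙 X)) (C.ext z z') = C.mul z z' := by
      rw [TheoryData.ext, map_mul, ← C.pull_comp, ← C.pull_comp, lift_fst, lift_snd, C.pull_id,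
        C.pull_id]
    rwa [e] at h1
  · have := cograph_mem (C := C) (Obj.lift (𝟙 X) (𝟙 X))
    have e : ((X.prod X).dim : ℤ) + (j + j' : ℕ) - (j + j' : ℕ) = (X.prod X).dim := by ring
    rw [e]
    exact this

end Pool.Agent.K1H74.BB
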