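import Pool.Agent.K1H74.BB.Prod

/-!
# Cycles on the parts of weight at least twice the codimension

If the Abel-Jacobi maps are injective on the parts of weight `2 j - 1` then the Chow group of cycles
of codimension `j` of a part of weight `n > 2 j` vanishes, and that of a part of weight `2 j` injects
into cohomology.
-/

set_option autoImplicit false

open CategoryTheory AlgebraicGeometry

universe u v w

namespace Pool.Agent.K1H74.BB

open Pool.Agent.H914 Pool.Agent.H914.VarClass Pool.Agent.H914.VarClass.Obj Pool.Agent.W492.BB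
  Pool.Agent.W550.Corr Pool.Agent.TH133 Pool.Agent.Y148.BB

set_option linter.unusedSectionVars false
set_option linter.unusedVariables false

variable {k : Type u} [Field k] {𝒱 : VarClass k}

variable {C : TheoryData.{u, v, 0} 𝒱 ℚ} [hC : IsChowProj C] {K : Type w} [Field K]
  {H : WeilTheoryData.{u, v, w} C K} [hH : IsWeilProj H] {X Y Z W T P S A B : 𝒱.Obj}
  {𝒲 : 𝒱.Obj → Prop}

/-- The two claims in codimension `j`. -/
def Claims (𝒲 : 𝒱.Obj → Prop) (H : WeilTheoryData.{u, v, w} C K) (j : ℕ) : Prop :=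
  ∀ (n : ℕ) (P : 𝒱.Obj) (p : C.A (P.prod P)), IsPart 𝒲 H n P p → ∀ z ∈ C.gr P j,
    C.act p z = z → (2 * j < n → z = 0) ∧ (2 * j = n → H.cl z = 0 → z = 0)

include hC hH

lemma Claims.low {j n : ℕ} (ih : ∀ i < j, Claims 𝒲 H i) {p : C.A (P.prod P)}
    (hP : IsPart 𝒲 H n P p) {i : ℤ} (hi : i < j) (h2 : 2 * i < n) {x : C.A P}
    (hx : x ∈ C.gr P i) : C.act p x = 0 := by
  have hp := hP.piece
  by_cases h0 : i < 0
  · rw [C.gr_neg P i h0] at hx
    rw [(Submodule.mem_bot _).1 hx, TheoryData.act_map_zero]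
  · obtain ⟨i, rfl⟩ := Int.eq_ofNat_of_zero_le (by omega : 0 ≤ i)
    have h1 : C.act p x ∈ C.gr P i := act_mem0 C hp.mem hx
    exact (ih i (by exact_mod_cast hi) n P p hP _ h1 (act_idem hp.idem x)).1
      (by exact_mod_cast h2)

/-- The contraction of a fixed class. -/
lemma contr_fixed {n m : ℕ} {p : C.A (P.prod P)} {r : C.A (T.prod T)} (hp : IsPiece H n P p)
    (hr : IsPiece H m T r) {z : C.A (P.prod T)} (hz : C.act (tens C p r) z = z) (t : C.A T) :
    C.act (tp C z) (C.act r t) = C.act (tp C z) t ∧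
      C.act p (C.act (tp C z) t) = C.act (tp C z) t := by
  obtain ⟨h1, h2⟩ := fixed_comp hp.idem hp.sd hr.idem hz
  constructor
  · rw [← C.act_comp]
    have h3 : tp C (C.comp z r) = C.comp (tp C r) (tp C z) := tp_comp C (ch_comm C) _ _
    rw [h2, hr.sd] at h3
    rw [← h3]
  · rw [← C.act_comp]
    have h3 : tp C (C.comp p z) = C.comp (tp C z) (tp C p) := tp_comp C (ch_comm C) _ _
    rw [h1, hp.sd] at h3
    rw [← h3]

lemma curve_step (hF : FibreProperty C) {n : ℕ} {p : C.A (P.prod P)} (hp : IsPiece H n P p)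
    {o : C.A T} (hd : T.dim = 1) {j : ℤ}
    (hlow : ∀ x ∈ C.gr P (j - 1), C.act p x = 0) {z : C.A (P.prod T)}
    (hz : z ∈ C.gr (P.prod T) j) (hpz : C.act (tens C p (oddProj C o)) z = z)
    (hc : ∀ t ∈ C.gr T 1, C.act (tp C z) t = 0) : z = 0 := by
  have h1 : z ∈ Submodule.span ℚ {c | ∃ (x : C.A P) (t : C.A T), C.Deg (j - 1) x ∧ C.Deg 1 t ∧
      c = C.ext x t} := by
    refine hF P T j z hd hz fun t ht => ?_
    have := hc t ht
    rw [act_tp] at this
    exact this
  have h2 : C.actL (tens C p (oddProj C o)) z = 0 := by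
    have h3 : Submodule.span ℚ {c | ∃ (x : C.A P) (t : C.A T), C.Deg (j - 1) x ∧ C.Deg 1 t ∧
      c = C.ext x t} ≤ LinearMap.ker (C.actL (tens C p (oddProj C o))) := by
      rw [Submodule.span_le]
      rintro _ ⟨x, t, hx, ht, rfl⟩
      rw [SetLike.mem_coe, LinearMap.mem_ker, TheoryData.actL_apply,
        act_tens_ext C _ _ (fun f c => ch_comm C _ _), hlow x hx, TheoryData.ext_zero_left]
    exact LinearMap.mem_ker.1 (h3 h1)
  rw [TheoryData.actL_apply, hpz] at h2
  exact h2

/-- The restriction to a curve on a surface of a class on `P ⊗ t_2(S)` is a class on `P ⊗ h^1`. -/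
lemma restrict_fixed {n : ℕ} {p : C.A (P.prod P)} (hp : IsPiece H n P p)
    {q : C.A (S.prod S)} (hq : IsPiece H 2 S q) (hdiv : ∀ D : C.A S, C.Deg 1 D → C.act q D = 0)
    {o : C.A T} (hd : T.dim = 1) (i : T ⟶ S) (hx : C.act q (C.push i o) = 0) {z : C.A (P.prod S)}
    (hz : C.act (tens C p q) z = z) :
    C.act (tens C p (oddProj C o)) (C.pull (prodMap (𝟙 P) i) z) =
      C.pull (prodMap (𝟙 P) i) z := by
  obtain ⟨h1, h2⟩ := fixed_comp hp.idem hp.sd hq.idem hz
  have hD : C.act q (C.push i 1) = 0 := by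
    apply hdiv
    have h := C.push_mem i (C.one_mem T)
    have e : (0 : ℤ) + 1 * ((S.dim : ℤ) - T.dim) = 1 := by rw [hq.dim, hd]; norm_num
    rwa [e] at h
  apply fixed_of_comp hp.sd
  · rw [pull_eq_comp, ← comp_assoc, h1]
  · have h3 : ∀ (a : C.A T) (b : C.A T), C.act q (C.push i a) = 0 →
        C.comp (C.comp z (tp C (C.graph i))) (C.ext a b) = 0 := by
      intro a b ha
      rw [comp_assoc, comp_ext, tp_tp, C.act_graph, ← h2, comp_assoc, comp_ext, hq.sd, ha,
        TheoryData.ext_zero_left, comp_zero]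
    rw [pull_eq_comp, oddProj, comp_sub, comp_sub, comp_dg, h3 _ _ hx, h3 _ _ hD, sub_zero,
      sub_zero]

lemma surface_step {n : ℕ} {p : C.A (P.prod P)} (hp : IsPiece H n P p)
    {q : C.A (S.prod S)} (hq : IsTranscendental 𝒲 H S q) (hq' : IsPiece H 2 S q) {j : ℤ}
    (hlow : ∀ (T : 𝒱.Obj) (o : C.A T), 𝒲 T → T.dim = 1 → C.Deg 1 o → HasDegree C o 1 →
      ∀ w ∈ C.gr (P.prod T) (j - 1), C.act (tens C p (oddProj C o)) w = 0)
    (hlow2 : ∀ x ∈ C.gr P (j - 2), C.act p x = 0) {z : C.A (P.prod S)}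
    (hz : z ∈ C.gr (P.prod S) j) (hpz : C.act (tens C p q) z = z)
    (hc : ∀ (T : 𝒱.Obj) (o : C.A T) (i : T ⟶ S), 𝒲 T → T.dim = 1 → C.Deg 1 o →
      HasDegree C o 1 →
      C.act (tens C p (oddProj C o)) (C.pull (prodMap (𝟙 P) i) z) =
      C.pull (prodMap (𝟙 P) i) z → C.pull (prodMap (𝟙 P) i) z = 0) : z = 0 := by
  obtain ⟨x, π, hx, hx1, hpen, hπ, h0, h4, h2, hDD, hc1, hc3⟩ := hq.exists_ck
  have hqx : C.act q x = 0 := IsTranscendental.act_x (H := H) hx hx1 hπ h4 h2
  have h1 := hpen P j z hz (by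
    intro T i o hT hd ho ho1 hio
    refine hc T o i hT hd ho ho1 (restrict_fixed (H := H) hp hq' hq.divisor hd i ?_ hpz)
    have : C.push i o = x := hio
    rw [this, hqx])
  have h5 : Submodule.span ℚ {c | ∃ (T : 𝒱.Obj) (i : T ⟶ S) (w : C.A (P.prod T)), 𝒲 T ∧
      T.dim = 1 ∧ C.Deg (j - 1) w ∧ c = C.down (prodMap (𝟙 P) i) w} ≤
      LinearMap.ker (C.actL (tens C p q)) := by
    rw [Submodule.span_le]
    rintro _ ⟨T, i, w, hT, hd, hw, rfl⟩
    rw [SetLike.mem_coe, LinearMap.mem_ker, TheoryData.actL_apply]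
    obtain ⟨o, ho, ho2, ho3⟩ := exists_deg_one C T
    have ho' : C.Deg 1 o := by
      rw [hd] at ho
      exact_mod_cast ho
    have ho1 : HasDegree C o 1 := fun Y => ⟨by rw [ho3 Y, one_smul], by rw [ho2 Y, one_smul]⟩
    have e1 : C.down (prodMap (𝟙 P) i) w = C.comp w (C.graph i) := (comp_graph i w).symm
    have hD : C.act q (C.push i 1) = 0 := by
      apply hq.divisor
      have h := C.push_mem i (C.one_mem T)
      have e : (0 : ℤ) + 1 * ((S.dim : ℤ) - T.dim) = 1 := by rw [hq'.dim, hd]; norm_num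
      rwa [e] at h
    have hdec : w = C.comp w (C.ext o 1) + C.comp w (oddProj C o) + C.comp w (C.ext 1 o) := by
      rw [oddProj, comp_sub, comp_sub, comp_dg]
      abel
    have hodd : C.comp (C.comp p w) (oddProj C o) = 0 := by
      have h6 := hlow T o hT hd ho' ho1 w hw
      rw [act_tens C (ch_comm C), hp.sd] at h6
      exact h6
    have h7 : C.comp (C.comp p (C.comp w (C.ext 1 o))) (C.comp (C.graph i) q) = 0 := by
      rw [comp_ext, comp_ext, hp.sd, hlow2, TheoryData.ext_zero_left, zero_comp]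
      refine act_degc (tp_mem C hw) (C.one_mem T) ?_
      rw [hd]
      push_cast
      ring
    have h8 : C.comp (C.comp p (C.comp w (C.ext o 1))) (C.comp (C.graph i) q) = 0 := by
      rw [comp_ext, comp_ext, ext_comp, C.act_comp, C.act_graph, hD, TheoryData.ext_zero_right]
    rw [act_tens C (ch_comm C), hp.sd, e1, ← comp_assoc, comp_assoc, hdec, comp_add, comp_add,
      add_comp, add_comp, h7, h8, ← comp_assoc C p w, hodd, zero_comp, add_zero, add_zero]
  have h6 := LinearMap.mem_ker.1 (h5 h1)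
  rw [TheoryData.actL_apply, hpz] at h6
  exact h6

omit hH in
lemma tp_graph (f : X ⟶ Y) : tp C (C.graph f) = C.cograph f := by
  rw [tp_eq_push, TheoryData.graph, TheoryData.cograph, ← C.push_comp]
  congr 1
  have e1 : Obj.lift (𝟙 X) f ≫ sw X Y = Obj.lift f (𝟙 X) := by
    apply prod_ext <;> simp [sw, comp_lift]
  rw [e1]

/-- The restriction of a class on `(P, p) ⊗ (W, r)` to `P × Y` is a class on `(P, p) ⊗ (Y, s)`. -/
lemma section_fixed {n m m' : ℕ} {p : C.A (P.prod P)} (hp : IsPiece H n P p)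
    {r : C.A (W.prod W)} (hr : IsPiece H m W r) {s : C.A (Y.prod Y)} (hs : IsPiece H m' Y s)
    (i : Y ⟶ W) (hi : C.comp r (C.comp (tp C (C.graph i)) s) = C.comp r (tp C (C.graph i)))
    {z : C.A (P.prod W)} (hz : C.act (tens C p r) z = z) :
    C.act (tens C p s) (C.pull (prodMap (𝟙 P) i) z) = C.pull (prodMap (𝟙 P) i) z := by
  obtain ⟨h1, h2⟩ := fixed_comp hp.idem hp.sd hr.idem hz
  apply fixed_of_comp hp.sd
  · rw [pull_eq_comp, ← comp_assoc, h1]
  · rw [pull_eq_comp, comp_assoc]
    have h3 : C.comp (C.comp z r) (C.comp (tp C (C.graph i)) s) =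
        C.comp (C.comp z r) (tp C (C.graph i)) := by
      rw [comp_assoc, comp_assoc, hi]
    rwa [h2] at h3

/-- **Restriction principle.** A cycle of codimension `j` on a part of weight `n ≥ 2 j` vanishes if
its images on all parts of weight `n - 1` vanish. -/
theorem vanish {j : ℕ} (hF : FibreProperty C) (ih : ∀ i < j, Claims 𝒲 H i) {n : ℕ}
    {p : C.A (P.prod P)} (hP : IsPart 𝒲 H n P p) (hjn : 2 * j ≤ n) {z : C.A P}
    (hz : z ∈ C.gr P j) (hpz : C.act p z = z)
    (hr : ∀ (m : ℕ) (Q : 𝒱.Obj) (q : C.A (Q.prod Q)) (Θ : C.A (P.prod Q)), m + 1 = n →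
      IsPart 𝒲 H m Q q → Θ ∈ C.gr (P.prod Q) P.dim → C.act q (C.act Θ z) = C.act Θ z →
      C.act Θ z = 0) : z = 0 := by
  cases hP with
  | factor _ _ _ hr' =>
    have hp := hr'.piece
    cases hr' with
    | curve _ o hT hd ho h1 =>
      obtain rfl : j = 0 := by omega
      obtain ⟨c, rfl⟩ := hC.gr_zero P z (by exact_mod_cast hz)
      rw [← hpz, act_map_smul]
      have e1 : C.act (oddProj C o) (1 : C.A P) = 0 := by
        rw [oddProj, TheoryData.act_sub, TheoryData.act_sub, act_dg,
          act_ext' (q := 1) (by rwa [mul_one]), one_smul, sub_self, zero_sub,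
          act_ext' (q := 0), zero_smul, neg_zero]
        rw [one_mul]
        exact hasDegree_of_ne (i := 0) (C.one_mem P) (by rw [hd]; norm_num)
      rw [e1, smul_zero]
    | surface _ _ hS h =>
      obtain ⟨x, π, hx, hx1, hpen, hπ, h0, h4, h2, hDD, hc1, hc3⟩ := h.exists_ck
      by_cases hj : j = 0
      · subst hj
        obtain ⟨c, rfl⟩ := hC.gr_zero P z (by exact_mod_cast hz)
        rw [← hpz, act_map_smul, IsTranscendental.act_one (H := H) hx1 hπ h0 h2, smul_zero]
      · obtain rfl : j = 1 := by omega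
        rw [← hpz]
        exact h.divisor z (by exact_mod_cast hz)
    | sections n _ _ hW hd hrr idem sd kills 𝒴 hf hi hpen =>
      have h1 : ∀ (Y : 𝒱.Obj) (i : Y ⟶ P) (s : C.A (Y.prod Y)), 𝒴 Y i s → C.pull i z = 0 := by
        intro Y i s hY
        have h2 := hr n Y s (C.cograph i) rfl (IsPart.factor n Y s (hf Y i s hY))
          (cograph_mem i) (by
            rw [← tp_graph]
            conv_lhs => rw [← hpz]
            conv_rhs => rw [← hpz]
            rw [← C.act_comp, ← C.act_comp, hi Y i s hY, C.act_comp])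
        rwa [C.act_cograph] at h2
      have h2 := hpen P j (C.ext 1 z) (by
          have := ext_mem' (C.one_mem P) hz
          rwa [zero_add] at this) (by
          intro Y i s hY
          change C.pull (prodMap (𝟙 P) i) (C.ext 1 z) = 0
          rw [pull_ext C, h1 Y i s hY, TheoryData.ext_zero_right])
      obtain ⟨o, ho, ho2, ho3⟩ := exists_deg_one C P
      have ho1 : HasDegree C o 1 := fun Y => ⟨by rw [ho3 Y, one_smul], by rw [ho2 Y, one_smul]⟩
      have h3 : Submodule.span ℚ {c | ∃ (Y : 𝒱.Obj) (i : Y ⟶ P) (s : C.A (Y.prod Y))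
          (w : C.A (P.prod Y)), 𝒴 Y i s ∧ C.Deg ((j : ℤ) - 1) w ∧
          c = C.down (prodMap (𝟙 P) i) w} ≤
          LinearMap.ker (C.actL p ∘ₗ (actB C (X := P) (Y := P)).flip o) := by
        rw [Submodule.span_le]
        rintro _ ⟨Y, i, s, w, hY, hw, rfl⟩
        rw [SetLike.mem_coe, LinearMap.mem_ker]
        change C.act p (C.act (C.down (prodMap (𝟙 P) i) w) o) = 0
        have e1 : C.down (prodMap (𝟙 P) i) w = C.comp w (C.graph i) := (comp_graph i w).symm
        have e2 : C.comp s (C.comp (C.graph i) p) = C.comp (C.graph i) p := by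
          have h4 := congrArg (tp C) (hi Y i s hY)
          rw [tp_comp C (ch_comm C), tp_comp C (ch_comm C), tp_comp C (ch_comm C), tp_tp, sd,
            (hf Y i s hY).piece.sd] at h4
          rw [← comp_assoc]
          exact h4
        rw [e1, C.act_comp, ← C.act_comp (C.graph i), ← e2, C.act_comp,
          Claims.low ih (IsPart.factor n Y s (hf Y i s hY)) (i := (j : ℤ) - 1) (by omega)
            (by omega), TheoryData.act_map_zero]
        refine act_degc hw ho ?_
        ring
      have h4 := LinearMap.mem_ker.1 (h3 h2)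
      change C.act p (C.act (C.ext 1 z) o) = 0 at h4
      rw [act_ext' (q := 1) (by rwa [one_mul]), one_smul, hpz] at h4
      exact h4
  | prod n' m P' T p' r hP hr' =>
    have hp := hP.piece
    have hT := hr'.piece
    have hPT := IsPart.prod n' m P' T p' r hP hr'
    have hpos := hp.pos
    cases hr' with
    | curve _ o hT' hd ho h1 =>
      refine curve_step hF hp hd (fun x hx => Claims.low ih hP (by omega) (by omega) hx) hz hpz
        fun t ht => ?_
      have e1 : C.act (C.comp (C.mulCorr (C.pull (snd P' T) t)) (C.graph (fst P' T))) z =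
          C.act (tp C z) t := by
        rw [C.act_comp, C.act_mulCorr, C.act_graph, act_tp, ch_comm C]
      rw [← e1]
      refine hr n' P' p' _ rfl hP ?_ ?_
      · have h2 : C.mulCorr (C.pull (snd P' T) t) ∈
            C.gr ((P'.prod T).prod (P'.prod T)) (1 + ((P'.prod T).dim : ℤ)) := by
          have h := C.push_mem (Obj.lift (𝟙 (P'.prod T)) (𝟙 (P'.prod T)))
            (C.pull_mem (snd P' T) ht)
          have e2 : (1 : ℤ) + 1 * ((((P'.prod T).prod (P'.prod T)).dim : ℤ) -
              ((P'.prod T).dim : ℤ)) = 1 + ((P'.prod T).dim : ℤ) := by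
            rw [dim_prod (P'.prod T)]; push_cast; ring
          rwa [e2] at h
        refine comp_degc h2 (graph_memc _) ?_
        rw [dim_prod, hd]
        push_cast
        ring
      · rw [e1]
        exact (contr_fixed hp hT hpz t).2
    | surface _ _ hS h =>
      refine surface_step hp h hT ?_ (fun x hx => Claims.low ih hP (by omega) (by omega) hx) hz
        hpz ?_
      · intro T' o hT' hd ho ho1 w hw
        exact Claims.low ih (IsPart.prod n' 1 P' T' p' _ hP (IsFactor.curve T' o hT' hd ho ho1))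
          (by omega) (by push_cast; omega) hw
      · intro T' o i hT' hd ho ho1 hfix
        have h2 := hr (n' + 1) _ _ (C.cograph (prodMap (𝟙 P') i)) (by omega)
          (IsPart.prod n' 1 P' T' p' _ hP (IsFactor.curve T' o hT' hd ho ho1)) (cograph_mem _)
          (by rw [C.act_cograph]; exact hfix)
        rwa [C.act_cograph] at h2
    | sections n _ _ hW hd hrr idem sd kills 𝒴 hf hi hpen =>
      have h1 : ∀ (Y : 𝒱.Obj) (i : Y ⟶ T) (s : C.A (Y.prod Y)), 𝒴 Y i s →
          C.pull (prodMap (𝟙 P') i) z = 0 := by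
        intro Y i s hY
        have h2 := hr (n' + n) _ _ (C.cograph (prodMap (𝟙 P') i)) (by omega)
          (IsPart.prod n' n P' Y p' s hP (hf Y i s hY)) (cograph_mem _)
          (by rw [C.act_cograph]
              exact section_fixed hp hT (hf Y i s hY).piece i (hi Y i s hY) hpz)
        rwa [C.act_cograph] at h2
      have h2 := hpen P' j z hz h1
      have h3 : Submodule.span ℚ {c | ∃ (Y : 𝒱.Obj) (i : Y ⟶ T) (s : C.A (Y.prod Y))
          (w : C.A (P'.prod Y)), 𝒴 Y i s ∧ C.Deg ((j : ℤ) - 1) w ∧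
          c = C.down (prodMap (𝟙 P') i) w} ≤ LinearMap.ker (C.actL (tens C p' r)) := by
        rw [Submodule.span_le]
        rintro _ ⟨Y, i, s, w, hY, hw, rfl⟩
        rw [SetLike.mem_coe, LinearMap.mem_ker, TheoryData.actL_apply]
        have e1 : C.down (prodMap (𝟙 P') i) w = C.comp w (C.graph i) := (comp_graph i w).symm
        have e2 : C.comp s (C.comp (C.graph i) r) = C.comp (C.graph i) r := by
          have h4 := congrArg (tp C) (hi Y i s hY)
          rw [tp_comp C (ch_comm C), tp_comp C (ch_comm C), tp_comp C (ch_comm C), tp_tp, sd,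
            (hf Y i s hY).piece.sd] at h4
          rw [← comp_assoc]
          exact h4
        have h5 : C.comp (C.comp p' w) s = 0 := by
          have h6 := Claims.low ih (IsPart.prod n' n P' Y p' s hP (hf Y i s hY))
            (i := (j : ℤ) - 1) (by omega) (by push_cast; omega) hw
          rw [act_tens C (ch_comm C), hp.sd] at h6
          exact h6
        rw [act_tens C (ch_comm C), hp.sd, e1, ← comp_assoc, comp_assoc, ← e2, ← comp_assoc, h5,
          zero_comp]
      have h4 := LinearMap.mem_ker.1 (h3 h2)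
      rw [TheoryData.actL_apply, hpz] at h4
      exact h4

/-- **Main induction.** The claims follow from the statement on the weight `2 j`. -/
theorem claims_of (hF : FibreProperty C) {d : ℕ∞}
    (hcl : ∀ j : ℕ, (j : ℕ∞) ≤ d → (∀ i < j, Claims 𝒲 H i) → ClassInjective 𝒲 H j) (j : ℕ) :
    (j : ℕ∞) ≤ d → Claims 𝒲 H j := by
  induction j using Nat.strong_induction_on with
  | _ j ihj =>
  intro hjd
  have ih : ∀ i < j, Claims 𝒲 H i := fun i hi =>
    ihj i hi (le_trans (by exact_mod_cast hi.le) hjd)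
  have h2 := hcl j hjd ih
  intro n
  induction n using Nat.strong_induction_on with
  | _ n ihn =>
  intro P p hP z hz hpz
  refine ⟨fun hj => ?_, fun hj h0 => ?_⟩
  · refine vanish hF ih hP hj.le hz hpz ?_
    intro m Q q Θ hm hQ hΘ hfix
    have h3 : C.act Θ z ∈ C.gr Q j := act_degc hΘ hz rfl
    by_cases h4 : 2 * j < m
    · exact (ihn m (by omega) Q q hQ _ h3 hfix).1 h4
    · refine (ihn m (by omega) Q q hQ _ h3 hfix).2 (by omega) ?_
      rw [cl_act, hP.piece.cl_zero hz hpz (by omega)]
      exact TheoryData.act_map_zero _ _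
  · subst hj
    exact h2 P p hP z hz h0 hpz

/-- The statement on the weight `2 j` follows from the injectivity of the Abel-Jacobi maps. -/
theorem classInjective {N : ∀ X : 𝒱.Obj, ℕ → Submodule ℚ (C.A X)}
    (hN : IsAbelJacobiKernel H N) (hF : FibreProperty C) {j : ℕ}
    (ih : ∀ i < j, Claims 𝒲 H i) (hAJ : 2 ≤ j → AJInjective 𝒲 H N j) : ClassInjective 𝒲 H j := by
  intro P p hP z hz h0 hpz
  have hp := hP.piece
  have h4 : z ∈ N P j := by
    rw [← hpz]
    refine hN.kills P P j j p ?_ ?_ z hz h0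
    · have e : (P.dim : ℤ) + j - j = P.dim := by ring
      rw [e]
      exact hp.mem
    · refine hp.kills _ ?_
      push_cast
      omega
  refine vanish hF ih hP le_rfl hz hpz ?_
  intro m Q q Θ hm hQ hΘ hfix
  have h5 : C.act Θ z ∈ N Q j := by
    refine hN.stable P Q j j Θ ?_ z h4
    have e : (P.dim : ℤ) + j - j = P.dim := by ring
    rw [e]
    exact hΘ
  by_cases h6 : 2 ≤ j
  · refine hAJ h6 Q q ?_ _ h5 hfix
    have e : 2 * j - 1 = m := by omega
    rw [e]
    exact hQ
  · obtain rfl : j = 1 := by omega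
    exact hN.abel Q _ h5

theorem claims {N : ∀ X : 𝒱.Obj, ℕ → Submodule ℚ (C.A X)} (hN : IsAbelJacobiKernel H N)
    (hF : FibreProperty C) {d : ℕ∞}
    (hAJ : ∀ j : ℕ, 2 ≤ j → (j : ℕ∞) ≤ d → AJInjective 𝒲 H N j) (j : ℕ) :
    (j : ℕ∞) ≤ d → Claims 𝒲 H j :=
  claims_of hF (fun i hi ih => classInjective hN hF ih fun h2 => hAJ i h2 hi) j

end Pool.Agent.K1H74.BB
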