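import Pool.Agent.K1H74.BB.Claims

/-!
# Decomposition of the diagonal into parts
-/

set_option autoImplicit false

open CategoryTheory AlgebraicGeometry

universe u v w

namespace Pool.Agent.K1H74.BB

open Pool.Agent.H914 Pool.Agent.H914.VarClass Pool.Agent.H914.VarClass.Obj Pool.Agent.W492.BB
  Pool.Agent.W550.Corr Pool.Agent.TH133 Pool.Agent.Y148.BB

set_option linter.unusedSectionVars false
set_option linter.unusedVariables false

variable {k : Type u} [Field k] {𝒱 : VarClass k}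

variable {C : TheoryData.{u, v, 0} 𝒱 ℚ} [hC : IsChowProj C] {K : Type w} [Field K]
  {H : WeilTheoryData.{u, v, w} C K} [hH : IsWeilProj H] {X Y Z W T P S A B : 𝒱.Obj}
  {𝒲 : 𝒱.Obj → Prop}

/-- A self-correspondence of `X` which factors through a twisted part. -/
noncomputable def GenPart (𝒲 : 𝒱.Obj → Prop) (H : WeilTheoryData.{u, v, w} C K) (d : ℕ∞) (X : 𝒱.Obj) :
    Set (C.A (X.prod X)) :=
  {c | ∃ (n : ℕ) (P : 𝒱.Obj) (p : C.A (P.prod P)) (a : ℕ) (f : C.A (X.prod P))
    (g : C.A (P.prod X)), IsPart 𝒲 H n P p ∧ (n : ℕ∞) ≤ d ∧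
    f ∈ C.gr (X.prod P) ((X.dim : ℤ) - a) ∧ g ∈ C.gr (P.prod X) ((P.dim : ℤ) + a) ∧
    c = C.comp f (C.comp p g)}

/-- A decomposable self-correspondence of `X`. -/
noncomputable def GenExt (C : TheoryData.{u, v, 0} 𝒱 ℚ) (X : 𝒱.Obj) : Set (C.A (X.prod X)) :=
  {c | ∃ (a : ℕ) (y y' : C.A X), y ∈ C.gr X ((X.dim : ℤ) - a) ∧ y' ∈ C.gr X a ∧ c = C.ext y y'}

/-- The span of both. -/
noncomputable def dec (𝒲 : 𝒱.Obj → Prop) (H : WeilTheoryData.{u, v, w} C K) (d : ℕ∞) (X : 𝒱.Obj) :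
    Submodule ℚ (C.A (X.prod X)) :=
  Submodule.span ℚ (GenPart 𝒲 H d X ∪ GenExt C X)

include hC hH

lemma dec_mono {d d' : ℕ∞} (h : d ≤ d') (X : 𝒱.Obj) : dec 𝒲 H d X ≤ dec 𝒲 H d' X := by
  apply Submodule.span_mono
  apply Set.union_subset_union_left
  rintro _ ⟨n, P, p, a, f, g, hP, hn, hf, hg, rfl⟩
  exact ⟨n, P, p, a, f, g, hP, hn.trans h, hf, hg, rfl⟩

lemma dec_conj {d : ℕ∞} {b : ℕ} {Γ : C.A (X.prod Y)} {Δ : C.A (Y.prod X)}
    (hΓ : Γ ∈ C.gr (X.prod Y) ((X.dim : ℤ) - b)) (hΔ : Δ ∈ C.gr (Y.prod X) ((Y.dim : ℤ) + b))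
    {c : C.A (Y.prod Y)} (hc : c ∈ dec 𝒲 H d Y) :
    C.comp Γ (C.comp c Δ) ∈ dec 𝒲 H d X := by
  induction hc using Submodule.span_induction with
  | mem c hc =>
    apply Submodule.subset_span
    rcases hc with ⟨n, P, p, a, f, g, hP, hn, hf, hg, rfl⟩ | ⟨a, y, y', hy, hy', rfl⟩
    · refine Or.inl ⟨n, P, p, b + a, C.comp Γ f, C.comp g Δ, hP, hn, ?_, ?_, ?_⟩
      · refine comp_degc hΓ hf ?_
        push_cast
        ring
      · refine comp_degc hg hΔ ?_
        push_cast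
        ring
      · rw [comp_assoc, comp_assoc, comp_assoc]
    · refine Or.inr ⟨b + a, C.act (tp C Γ) y, C.act Δ y', ?_, ?_, ?_⟩
      · refine act_degc (tp_mem C hΓ) hy ?_
        push_cast
        ring
      · refine act_degc hΔ hy' ?_
        push_cast
        ring
      · rw [ext_comp, comp_ext]
  | zero => rw [zero_comp, comp_zero]; exact Submodule.zero_mem _
  | add x y _ _ hx hy => rw [add_comp, comp_add]; exact Submodule.add_mem _ hx hy
  | smul r x _ hx =>
    have e : C.comp Γ (C.comp (r • x) Δ) = r • C.comp Γ (C.comp x Δ) := by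
      simp only [← compL_apply, map_smul, LinearMap.smul_apply]
    rw [e]
    exact Submodule.smul_mem _ _ hx

lemma dec_tens_gen {d d' : ℕ∞} {x : C.A (X.prod X)} {y : C.A (T.prod T)}
    (hx : x ∈ GenPart 𝒲 H d X ∪ GenExt C X) (hy : y ∈ GenPart 𝒲 H d' T ∪ GenExt C T) :
    tens C x y ∈ dec 𝒲 H (d + d') (X.prod T) := by
  apply Submodule.subset_span
  rcases hx with ⟨n, P, p, a, f, g, hP, hn, hf, hg, rfl⟩ | ⟨a, v, u, hv, hu, rfl⟩
  · rcases hy with ⟨n', P', p', a', f', g', hP', hn', hf', hg', rfl⟩ | ⟨a', v', u', hv', hu', rfl⟩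
    · obtain ⟨E, e, φ, ψ, hE, h1, h2, h3⟩ := exists_prod hP hP'
      have hd1 := hP.piece.dim
      have hd2 := hP'.piece.dim
      have hd3 := hE.piece.dim
      have e1 : tens C p p' = C.comp (C.graph φ) (C.comp e (C.graph ψ)) := by
        rw [← comp_assoc C, ← h3, comp_assoc C, graph_comp, h1]
        exact (comp_dg C _).symm
      refine Or.inl ⟨n + n', E, e, a + a', C.comp (tens C f f') (C.graph φ),
        C.comp (C.graph ψ) (tens C g g'), hE, ?_, ?_, ?_, ?_⟩
      · push_cast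
        exact add_le_add hn hn'
      · refine comp_degc (tens_mem C hf hf') (graph_memc φ) ?_
        rw [dim_prod, dim_prod, hd1, hd2, hd3]
        push_cast
        ring
      · refine comp_degc (graph_memc ψ) (tens_mem C hg hg') ?_
        rw [dim_prod, hd1, hd2, hd3]
        push_cast
        ring
      · rw [← tens_comp'', ← tens_comp'', e1]
        simp only [comp_assoc C]
    · refine Or.inl ⟨n, P, p, a + a', C.comp (wg C (fst X T) (C.pull (snd X T) v')) f,
        C.comp g (tp C (wg C (fst X T) (C.pull (snd X T) u'))), hP, ?_, ?_, ?_, ?_⟩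
      · exact le_trans hn le_self_add
      · refine comp_degc (wg_mem _ (C.pull_mem _ hv')) hf ?_
        rw [dim_prod]
        push_cast
        ring
      · refine comp_degc hg (tp_mem C (wg_mem _ (C.pull_mem _ hu'))) ?_
        push_cast
        ring
      · rw [tens_ext_right, comp_assoc, comp_assoc, comp_assoc]
  · rcases hy with ⟨n', P', p', a', f', g', hP', hn', hf', hg', rfl⟩ | ⟨a', v', u', hv', hu', rfl⟩
    · refine Or.inl ⟨n', P', p', a + a', C.comp (wg C (snd X T) (C.pull (fst X T) v)) f',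
        C.comp g' (tp C (wg C (snd X T) (C.pull (fst X T) u))), hP', ?_, ?_, ?_, ?_⟩
      · exact le_trans hn' le_add_self
      · refine comp_degc (wg_mem _ (C.pull_mem _ hv)) hf' ?_
        rw [dim_prod]
        push_cast
        ring
      · refine comp_degc hg' (tp_mem C (wg_mem _ (C.pull_mem _ hu))) ?_
        push_cast
        ring
      · rw [tens_ext_left, comp_assoc, comp_assoc, comp_assoc]
    · refine Or.inr ⟨a + a', C.ext v v', C.ext u u', ?_, ?_, tens_ext_ext _ _ _ _⟩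
      · have := ext_mem' hv hv'
        rw [dim_prod]
        have e : ((X.dim + T.dim : ℕ) : ℤ) - ((a + a' : ℕ) : ℤ) =
            (X.dim : ℤ) - a + ((T.dim : ℤ) - a') := by push_cast; ring
        rw [e]
        exact this
      · have := ext_mem' hu hu'
        push_cast
        exact this

lemma dec_tens {d d' : ℕ∞} {x : C.A (X.prod X)} {y : C.A (T.prod T)}
    (hx : x ∈ dec 𝒲 H d X) (hy : y ∈ dec 𝒲 H d' T) :
    tens C x y ∈ dec 𝒲 H (d + d') (X.prod T) := by
  have h1 : ∀ x ∈ GenPart 𝒲 H d X ∪ GenExt C X,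
      dec 𝒲 H d' T ≤ (dec 𝒲 H (d + d') (X.prod T)).comap
        (tensL (C := C) (Z := T) (W := T) x) := by
    intro x hx
    rw [dec, Submodule.span_le]
    intro y hy
    exact dec_tens_gen hx hy
  have h2 : dec 𝒲 H d X ≤ (dec 𝒲 H (d + d') (X.prod T)).comap
      ((tensL (C := C) (X := X) (Y := X) (Z := T) (W := T)).flip y) := by
    rw [dec, Submodule.span_le]
    intro x hx
    exact h1 x hx hy
  exact h2 hx

lemma mem_genPart_self {n : ℕ} {p : C.A (P.prod P)} (hP : IsPart 𝒲 H n P p) {d : ℕ∞}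
    (hd : (n : ℕ∞) ≤ d) : p ∈ dec 𝒲 H d P := by
  apply Submodule.subset_span
  refine Or.inl ⟨n, P, p, 0, dg C P, dg C P, hP, hd, ?_, ?_, ?_⟩
  · rw [Nat.cast_zero, sub_zero]
    exact dg_mem C P
  · rw [Nat.cast_zero, add_zero]
    exact dg_mem C P
  · rw [dg_comp, comp_dg]

lemma dec_curve (hT : 𝒲 T) (hd : T.dim = 1) : dg C T ∈ dec 𝒲 H T.dim T := by
  obtain ⟨o, ho, ho2, ho3⟩ := exists_deg_one C T
  have ho' : C.Deg 1 o := by
    rw [hd] at ho
    exact_mod_cast ho
  have ho1 : HasDegree C o 1 := fun Y => ⟨by rw [ho3 Y, one_smul], by rw [ho2 Y, one_smul]⟩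
  have e : dg C T = C.ext o 1 + oddProj C o + C.ext 1 o := by
    rw [oddProj]
    abel
  rw [e]
  refine Submodule.add_mem _ (Submodule.add_mem _ ?_ ?_) ?_
  · apply Submodule.subset_span
    refine Or.inr ⟨0, o, 1, ?_, ?_, rfl⟩
    · rw [Nat.cast_zero, sub_zero]
      exact ho
    · rw [Nat.cast_zero]
      exact C.one_mem T
  · exact mem_genPart_self (IsPart.factor 1 T _ (IsFactor.curve T o hT hd ho' ho1))
      (by rw [hd])
  · apply Submodule.subset_span
    refine Or.inr ⟨1, 1, o, ?_, ?_, rfl⟩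
    · rw [hd, Nat.cast_one, sub_self]
      exact C.one_mem T
    · rw [Nat.cast_one]
      exact ho'

lemma dec_surface {q : C.A (S.prod S)} (hS : 𝒲 S) (hq : IsTranscendental 𝒲 H S q) :
    dg C S ∈ dec 𝒲 H S.dim S := by
  obtain ⟨x, π, hx, hx1, hpen, hπ, h0, h4, h2, hDD, hc1, hc3⟩ := hq.exists_ck
  have hsum := hπ.sum
  rw [hq.dim_eq] at hsum
  have e : Finset.range (2 * 2 + 1) = Finset.range 5 := rfl
  rw [e, Finset.sum_range_succ, Finset.sum_range_succ, Finset.sum_range_succ,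
      Finset.sum_range_succ, Finset.sum_range_succ, Finset.sum_range_zero, zero_add] at hsum
  rw [← hsum]
  refine Submodule.add_mem _ (Submodule.add_mem _ (Submodule.add_mem _
    (Submodule.add_mem _ ?_ ?_) ?_) ?_) ?_
  · rw [h0]
    apply Submodule.subset_span
    refine Or.inr ⟨0, x, 1, ?_, ?_, rfl⟩
    · rw [Nat.cast_zero, sub_zero, hq.dim_eq]
      exact hx
    · rw [Nat.cast_zero]
      exact C.one_mem S
  · refine (Submodule.span_le.2 ?_ : _ ≤ dec 𝒲 H S.dim S) hc1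
    rintro _ ⟨T, o, f, g, hT, hd, ho, ho1, hf, hg, rfl⟩
    apply Submodule.subset_span
    refine Or.inl ⟨1, T, oddProj C o, 0, f, g,
      IsPart.factor 1 T _ (IsFactor.curve T o hT hd ho ho1), ?_, ?_, ?_, rfl⟩
    · rw [hq.dim_eq]
      exact_mod_cast (by norm_num : (1 : ℕ) ≤ 2)
    · rw [hq.dim_eq, Nat.cast_zero, sub_zero]
      exact hf
    · rw [hd, Nat.cast_zero, add_zero]
      exact hg
  · have e2 : π 2 = q + (π 2 - q) := by abel
    rw [e2]
    refine Submodule.add_mem _ ?_ ?_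
    · exact mem_genPart_self (IsPart.factor 2 S _ (IsFactor.surface S q hS hq))
        (by rw [hq.dim_eq])
    · refine (Submodule.span_le.2 ?_ : _ ≤ dec 𝒲 H S.dim S) hDD
      rintro _ ⟨D, D', hD, hD', rfl⟩
      apply Submodule.subset_span
      refine Or.inr ⟨1, D, D', ?_, ?_, rfl⟩
      · rw [hq.dim_eq]
        exact hD
      · rw [Nat.cast_one]
        exact hD'
  · refine (Submodule.span_le.2 ?_ : _ ≤ dec 𝒲 H S.dim S) hc3
    rintro _ ⟨T, o, f, g, hT, hd, ho, ho1, hf, hg, rfl⟩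
    apply Submodule.subset_span
    refine Or.inl ⟨1, T, oddProj C o, 1, f, g,
      IsPart.factor 1 T _ (IsFactor.curve T o hT hd ho ho1), ?_, ?_, ?_, rfl⟩
    · rw [hq.dim_eq]
      exact_mod_cast (by norm_num : (1 : ℕ) ≤ 2)
    · rw [hq.dim_eq]
      exact hf
    · rw [hd]
      exact hg
  · rw [h4]
    apply Submodule.subset_span
    refine Or.inr ⟨2, 1, x, ?_, ?_, rfl⟩
    · rw [hq.dim_eq, sub_self]
      exact C.one_mem S
    · exact hx

omit hC hH in
lemma built_iff {d : ℕ∞} : BuiltFrom 𝒲 H d X ↔ dg C X ∈ dec 𝒲 H d X := Iff.rfl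

/-- The class of varieties is closed under products. -/
lemma built_prod {d d' : ℕ∞} (hX : BuiltFrom 𝒲 H d X) (hY : BuiltFrom 𝒲 H d' Y) :
    BuiltFrom 𝒲 H (d + d') (X.prod Y) := by
  rw [built_iff, ← tens_dg C X Y]
  exact dec_tens hX hY

/-- The class of varieties is closed under direct summands of twists. -/
lemma built_summand {d : ℕ∞} {b : ℕ} {Γ : C.A (X.prod Y)} {Δ : C.A (Y.prod X)}
    (hΓ : C.Deg ((X.dim : ℤ) - b) Γ) (hΔ : C.Deg ((Y.dim : ℤ) + b) Δ)
    (h : C.comp Γ Δ = dg C X) (hY : BuiltFrom 𝒲 H d Y) : BuiltFrom 𝒲 H d X := by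
  have h1 := dec_conj hΓ hΔ hY
  rw [dg_comp, h] at h1
  exact h1

omit hC hH in
lemma IsFactor.mem {n : ℕ} {T : 𝒱.Obj} {r : C.A (T.prod T)} (hr : IsFactor 𝒲 H n T r) : 𝒲 T := by
  cases hr with
  | curve _ o hT _ _ _ => exact hT
  | surface _ _ hS _ => exact hS
  | sections n _ _ hW _ _ _ _ _ _ _ _ _ => exact hW

lemma IsPart.built (h𝒲 : Generated 𝒲 H) {n : ℕ} {p : C.A (P.prod P)} (h : IsPart 𝒲 H n P p)
    {d : ℕ∞} (hn : (n : ℕ∞) ≤ d) : BuiltFrom 𝒲 H d P := by
  have h1 : BuiltFrom 𝒲 H P.dim P := by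
    clear hn
    induction h with
    | factor n T r hr => exact h𝒲 T hr.mem
    | prod n m P T p r _ hr ih =>
      have h2 := built_prod ih (h𝒲 T hr.mem)
      rw [dim_prod]
      push_cast
      exact h2
  refine dec_mono ?_ P h1
  rw [h.piece.dim]
  exact hn

/-- A variety with a factor `r` such that `Δ - r` is decomposable. -/
lemma built_of_factor {n : ℕ} {r : C.A (W.prod W)} (hr : IsFactor 𝒲 H n W r)
    (h : dg C W - r ∈ Submodule.span ℚ {c | ∃ (a : ℕ) (y y' : C.A W),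
      C.Deg ((W.dim : ℤ) - a) y ∧ C.Deg a y' ∧ c = C.ext y y'}) : BuiltFrom 𝒲 H W.dim W := by
  have e : dg C W = r + (dg C W - r) := by abel
  rw [built_iff, e]
  refine Submodule.add_mem _ ?_ ?_
  · exact mem_genPart_self (IsPart.factor n W r hr) (by rw [hr.piece.dim])
  · exact Submodule.span_mono Set.subset_union_right h

end Pool.Agent.K1H74.BB
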