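import Pool.Agent.Y148.BB.Corr

/-!
# Motives built from curves, surfaces and hyperplane sections: definitions

`𝒲` is a family of varieties. The Bloch-Beilinson filtrations (`IsBlochBeilinsonOn`), the kernels of the Abel-Jacobi maps (`IsAbelJacobiKernel`), the property
`FibreProperty` of Bloch and Srinivas and the projector `oddProj` on `h^1` of a curve are those of
the starting file `Pool.Agent.Y148.BB.Defs`.
-/

set_option autoImplicit false

open CategoryTheory AlgebraicGeometry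

universe u v w

namespace Pool.Agent.K1H74.BB

open Pool.Agent.H914 Pool.Agent.H914.VarClass Pool.Agent.H914.VarClass.Obj Pool.Agent.W492.BB
  Pool.Agent.W550.Corr Pool.Agent.TH133 Pool.Agent.Y148.BB

variable {k : Type u} [Field k] {𝒱 : VarClass k}

variable (C : TheoryData.{u, v, 0} 𝒱 ℚ) (𝒲 : 𝒱.Obj → Prop)

/-- The property of a pencil of curves on the surface `S` through the point `x` (Bloch and
Srinivas): a class on `P × S` whose restrictions to `P × T` vanish, for all the curves `T → S` in the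
family `𝒲` which carry a zero-cycle `o` of degree one with image `x` (such as the smooth members of
the pencil), is a sum of push-forwards of classes on products `P × T` with curves `T → S` in `𝒲` (the
normalisations of members of the pencil). -/
def PencilProperty {S : 𝒱.Obj} (x : C.A S) : Prop :=
  ∀ (P : 𝒱.Obj) (j : ℤ) (z : C.A (P.prod S)), C.Deg j z →
    (∀ (T : 𝒱.Obj) (i : T ⟶ S) (o : C.A T), 𝒲 T → T.dim = 1 → C.Deg 1 o → HasDegree C o 1 →
      C.down i o = x → C.up (prodMap (𝟙 P) i) z = 0) →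
    z ∈ Submodule.span ℚ {c | ∃ (T : 𝒱.Obj) (i : T ⟶ S) (w : C.A (P.prod T)), 𝒲 T ∧
      T.dim = 1 ∧ C.Deg (j - 1) w ∧ c = C.down (prodMap (𝟙 P) i) w}

variable {C} {K : Type w} [Field K] (H : WeilTheoryData.{u, v, w} C K)

/-- The correspondence `q` is the projector on the transcendental part `t_2(S)` of the motive of
the surface `S` (Murre; Kahn, Murre, Pedrini), with respect to the curves in the family `𝒲`: `q` is
a self-dual idempotent which acts as zero on divisors, and there are a zero-cycle `x` of degree one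
(a point), with a pencil of curves in `𝒲` through it, and a Chow-Kunneth decomposition `π` of `S`
such that `π 0 = x × S`, `π 4 = S × x`, `π 1` and `π 3` factor through the motives `h^1` of curves in
`𝒲`, `q` is a direct summand of `π 2`, and `π 2 - q` is a linear combination of products of
divisors. If `𝒲` contains all curves then every surface over an uncountable algebraically closed
field has such a projector. -/
structure IsTranscendental (S : 𝒱.Obj) (q : C.A (S.prod S)) : Prop where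
  dim_eq : S.dim = 2
  deg : C.Deg 2 q
  idem : C.comp q q = q
  self_dual : tp C q = q
  divisor : ∀ D : C.A S, C.Deg 1 D → C.act q D = 0
  exists_ck : ∃ (x : C.A S) (π : ℕ → C.A (S.prod S)), C.Deg 2 x ∧ HasDegree C x 1 ∧
    PencilProperty C 𝒲 x ∧ IsCK H S π ∧ π 0 = C.ext x 1 ∧ π 4 = C.ext 1 x ∧
    C.comp (π 2) q = q ∧
    π 2 - q ∈ Submodule.span ℚ {c | ∃ D D' : C.A S, C.Deg 1 D ∧ C.Deg 1 D' ∧ c = C.ext D D'} ∧
    π 1 ∈ Submodule.span ℚ {c | ∃ (T : 𝒱.Obj) (o : C.A T) (f : C.A (S.prod T))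
      (g : C.A (T.prod S)), 𝒲 T ∧ T.dim = 1 ∧ C.Deg 1 o ∧ HasDegree C o 1 ∧ C.Deg 2 f ∧
      C.Deg 1 g ∧ c = C.comp f (C.comp (oddProj C o) g)} ∧
    π 3 ∈ Submodule.span ℚ {c | ∃ (T : 𝒱.Obj) (o : C.A T) (f : C.A (S.prod T))
      (g : C.A (T.prod S)), 𝒲 T ∧ T.dim = 1 ∧ C.Deg 1 o ∧ HasDegree C o 1 ∧ C.Deg 1 f ∧
      C.Deg 2 g ∧ c = C.comp f (C.comp (oddProj C o) g)}

/-- `IsFactor n T r`: the variety `T` of dimension `n` belongs to the family `𝒲`, and `r` is a
projector on a direct factor of weight `n` of its motive, of one of the following kinds: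
* `T` is a curve and `r` is the projector `Δ - o × T - T × o` on `h^1(T)`, with `o` a zero-cycle of
  degree one;
* `T` is a surface and `r` is a projector on `t_2(T)`;
* `T = W` has dimension `n + 1 ≥ 2`, `r` is a self-dual idempotent which acts as zero on the
  cohomology outside the degree `n + 1`, and there is a family `𝒴` of varieties `i : Y → W` of
  dimension `n` with factors `(Y, s)`, such that `i^*` maps `(W, r)` to `(Y, s)`, with the property of
  Bloch and Srinivas: a class on `P × W` whose restrictions to `P × Y` vanish for all `Y` in `𝒴` is a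
  sum of push-forwards of classes on the varieties `P × Y`, `Y` in `𝒴`. (Example: `W` is a smooth
  complete intersection, `r` the projector on its primitive motive, and `𝒴` consists of the
  members of Lefschetz pencils or their resolutions.) -/
inductive IsFactor : ℕ → (T : 𝒱.Obj) → C.A (T.prod T) → Prop
  | curve (T : 𝒱.Obj) (o : C.A T) (hT : 𝒲 T) (hd : T.dim = 1) (ho : C.Deg 1 o)
      (h1 : HasDegree C o 1) : IsFactor 1 T (oddProj C o)
  | surface (S : 𝒱.Obj) (q : C.A (S.prod S)) (hS : 𝒲 S) (h : IsTranscendental 𝒲 H S q) :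
      IsFactor 2 S q
  | sections (n : ℕ) (W : 𝒱.Obj) (r : C.A (W.prod W)) (hW : 𝒲 W) (hd : W.dim = n + 1)
      (hr : C.Deg W.dim r) (idem : C.comp r r = r) (self_dual : tp C r = r)
      (kills : ∀ l : ℤ, l ≠ ((n + 1 : ℕ) : ℤ) → Kills H r l)
      (𝒴 : (Y : 𝒱.Obj) → (Y ⟶ W) → C.A (Y.prod Y) → Prop)
      (hf : ∀ (Y : 𝒱.Obj) (i : Y ⟶ W) (s : C.A (Y.prod Y)), 𝒴 Y i s → IsFactor n Y s)
      (hi : ∀ (Y : 𝒱.Obj) (i : Y ⟶ W) (s : C.A (Y.prod Y)), 𝒴 Y i s →
        C.comp r (C.comp (tp C (C.graph i)) s) = C.comp r (tp C (C.graph i)))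
      (hp : ∀ (P : 𝒱.Obj) (j : ℤ) (z : C.A (P.prod W)), C.Deg j z →
        (∀ (Y : 𝒱.Obj) (i : Y ⟶ W) (s : C.A (Y.prod Y)), 𝒴 Y i s →
          C.up (prodMap (𝟙 P) i) z = 0) →
        z ∈ Submodule.span ℚ {c | ∃ (Y : 𝒱.Obj) (i : Y ⟶ W) (s : C.A (Y.prod Y))
          (w : C.A (P.prod Y)), 𝒴 Y i s ∧ C.Deg (j - 1) w ∧ c = C.down (prodMap (𝟙 P) i) w}) :
      IsFactor (n + 1) W r

/-- `IsPart n P p`: the variety `P` is a product of varieties `T_1, …, T_m`, `m ≥ 1`, and `p` is the
external product of projectors `r_k` as in `IsFactor`; the number `n` is the dimension of `P`. So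
`(P, p)` is the motive `(T_1, r_1) ⊗ ⋯ ⊗ (T_m, r_m)` of weight `n`, for instance
`h^1(T_1) ⊗ ⋯ ⊗ h^1(T_s) ⊗ t_2(S_1) ⊗ ⋯ ⊗ t_2(S_r)`, with `n = s + 2r`. -/
inductive IsPart : ℕ → (P : 𝒱.Obj) → C.A (P.prod P) → Prop
  | factor (n : ℕ) (T : 𝒱.Obj) (r : C.A (T.prod T)) (hr : IsFactor 𝒲 H n T r) : IsPart n T r
  | prod (n m : ℕ) (P T : 𝒱.Obj) (p : C.A (P.prod P)) (r : C.A (T.prod T)) (hp : IsPart n P p)
      (hr : IsFactor 𝒲 H m T r) : IsPart (n + m) (P.prod T) (tens C p r)

/-- The Chow motive of `X` is a direct summand of a finite direct sum of Tate motives and of motives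
`(P, p)(-a)`, `a ≥ 0`, with `(P, p)` as in `IsPart`, of weight at most `d` (`d = ⊤`: of any weight).
In terms of cycles: the diagonal of `X` is a linear combination of compositions `g ∘ p ∘ f` with
correspondences `f ∈ CH^(dim X - a)(X × P)` and `g ∈ CH^(dim P + a)(P × X)`, and of products `y × y'`
with `y ∈ CH^(dim X - a)(X)` and `y' ∈ CH^a(X)`. -/
def BuiltFrom (d : ℕ∞) (X : 𝒱.Obj) : Prop :=
  dg C X ∈ Submodule.span ℚ (
    {c | ∃ (n : ℕ) (P : 𝒱.Obj) (p : C.A (P.prod P)) (a : ℕ) (f : C.A (X.prod P))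
      (g : C.A (P.prod X)), IsPart 𝒲 H n P p ∧ (n : ℕ∞) ≤ d ∧ C.Deg ((X.dim : ℤ) - a) f ∧
      C.Deg ((P.dim : ℤ) + a) g ∧ c = C.comp f (C.comp p g)} ∪
    {c | ∃ (a : ℕ) (y y' : C.A X), C.Deg ((X.dim : ℤ) - a) y ∧ C.Deg a y' ∧ c = C.ext y y'})

/-- Every member `W` of the family `𝒲` is built from parts of weight at most `dim W`. (This holds
for curves, for surfaces with a projector as in `IsTranscendental`, and for varieties with a factor
`r` such that `Δ - r` is a linear combination of products of cycles, such as complete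
intersections.) -/
def Generated : Prop := ∀ W, 𝒲 W → BuiltFrom 𝒲 H W.dim W

/-- The Abel-Jacobi maps are injective on the cycles of codimension `j` of the motives `(P, p)` of
weight `2 j - 1` as in `IsPart`: a class `z ∈ CH^j(P)` in the kernel `N P j` of the Abel-Jacobi map
such that `p_* z = z` is zero. -/
def AJInjective (N : ∀ X : 𝒱.Obj, ℕ → Submodule ℚ (C.A X)) (j : ℕ) : Prop :=
  ∀ (P : 𝒱.Obj) (p : C.A (P.prod P)), IsPart 𝒲 H (2 * j - 1) P p →
    ∀ z ∈ N P j, C.act p z = z → z = 0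

/-- The cycle class maps are injective on the cycles of codimension `j` of the motives `(P, p)` of
weight `2 j` as in `IsPart`. -/
def ClassInjective (j : ℕ) : Prop :=
  ∀ (P : 𝒱.Obj) (p : C.A (P.prod P)), IsPart 𝒲 H (2 * j) P p →
    ∀ z : C.A P, C.Deg j z → H.cl z = 0 → C.act p z = z → z = 0

variable {H}

/-- The conditions on a Bloch-Beilinson filtration on the class `S` of varieties, except for
the condition that `F^2` is the kernel of the Abel-Jacobi map. -/
structure IsWeakOn (H : WeilTheoryData.{u, v, w} C K) (S : 𝒱.Obj → Prop)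
    (F : ∀ X : 𝒱.Obj, ℕ → ℕ → Submodule ℚ (C.A X)) : Prop where
  anti : ∀ X, S X → ∀ j ν : ℕ, F X j (ν + 1) ≤ F X j ν
  zero : ∀ X, S X → ∀ (j : ℕ) (z : C.A X), z ∈ F X j 0 ↔ C.Deg j z
  one : ∀ X, S X → ∀ (j : ℕ) (z : C.A X), z ∈ F X j 1 ↔ C.Deg j z ∧ H.cl z = 0
  top : ∀ X, S X → ∀ j : ℕ, F X j (j + 1) = ⊥
  stable : ∀ X Y, S X → S Y → ∀ (j i ν : ℕ) (Γ : C.A (X.prod Y)), C.Deg (X.dim + i - j) Γ →
    ∀ z ∈ F X j ν, C.act Γ z ∈ F Y i ν
  shift : ∀ X Y, S X → S Y → ∀ (j i ν : ℕ) (Γ : C.A (X.prod Y)), C.Deg (X.dim + i - j) Γ →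
    Kills H Γ (2 * j - ν) → ∀ z ∈ F X j ν, C.act Γ z ∈ F Y i (ν + 1)

end Pool.Agent.K1H74.BB
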