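import Pool.Agent.K1H74.BB.Dec

/-!
# The filtration
-/

set_option autoImplicit false

open CategoryTheory AlgebraicGeometry

universe u v w

namespace Pool.Agent.K1H74.BB

open Pool.Agent.H914 Pool.Agent.H914.VarClass Pool.Agent.H914.VarClass.Obj Pool.Agent.W492.BB
  Pool.Agent.W550.Corr Pool.Agent.TH133 Pool.Agent.Y148.BB

set_option linter.unusedSectionVars false
set_option linter.unusedVariables false

variable {k : Type u} [Field k] {𝒱 : VarClass k}

variable {C : TheoryData.{u, v, 0} 𝒱 ℚ} [hC : IsChowProj C] {K : Type w} [Field K]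
  {H : WeilTheoryData.{u, v, w} C K} [hH : IsWeilProj H] {X Y Z W T P S A B P' : 𝒱.Obj}
  {𝒲 : 𝒱.Obj → Prop} {d : ℕ∞}

omit hH in
lemma cl_smul_zero (q : ℚ) {z : C.A X} (h : H.cl z = 0) : H.cl (q • z) = 0 := by
  rw [Algebra.smul_def, map_mul, h, mul_zero]

/-- The filtration: a class `z ∈ CH^j(X)` lies in `F^ν` if it is homologically trivial (if `ν ≥ 1`)
and all its images in the groups `CH^i` of the parts of weight `n` with `2 i - n < ν` vanish. -/
noncomputable def fil (𝒲 : 𝒱.Obj → Prop) (H : WeilTheoryData.{u, v, w} C K) (d : ℕ∞)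
    (X : 𝒱.Obj) (j ν : ℕ) : Submodule ℚ (C.A X) where
  carrier := {z | z ∈ C.gr X j ∧ (1 ≤ ν → H.cl z = 0) ∧
    ∀ (n i : ℕ) (P : 𝒱.Obj) (p : C.A (P.prod P)) (Γ : C.A (X.prod P)), IsPart 𝒲 H n P p →
      (n : ℕ∞) ≤ d → 2 * i < n + ν → Γ ∈ C.gr (X.prod P) ((X.dim : ℤ) + i - j) →
      C.act p (C.act Γ z) = 0}
  zero_mem' := by
    refine ⟨Submodule.zero_mem _, fun _ => map_zero _, ?_⟩
    intro n i P p Γ _ _ _ _
    rw [TheoryData.act_map_zero, TheoryData.act_map_zero]
  add_mem' := by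
    rintro y z ⟨h1, h2, h3⟩ ⟨h1', h2', h3'⟩
    refine ⟨Submodule.add_mem _ h1 h1', fun h => ?_, ?_⟩
    · rw [map_add, h2 h, h2' h, add_zero]
    · intro n i P p Γ hP hn hi hΓ
      rw [act_map_add, act_map_add, h3 n i P p Γ hP hn hi hΓ, h3' n i P p Γ hP hn hi hΓ, add_zero]
  smul_mem' := by
    rintro q z ⟨h1, h2, h3⟩
    refine ⟨Submodule.smul_mem _ _ h1, fun h => cl_smul_zero q (h2 h), ?_⟩
    intro n i P p Γ hP hn hi hΓ
    rw [act_map_smul, act_map_smul, h3 n i P p Γ hP hn hi hΓ, smul_zero]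

lemma mem_fil {j ν : ℕ} {z : C.A X} : z ∈ fil 𝒲 H d X j ν ↔ z ∈ C.gr X j ∧
    (1 ≤ ν → H.cl z = 0) ∧
    ∀ (n i : ℕ) (P : 𝒱.Obj) (p : C.A (P.prod P)) (Γ : C.A (X.prod P)), IsPart 𝒲 H n P p →
      (n : ℕ∞) ≤ d → 2 * i < n + ν → Γ ∈ C.gr (X.prod P) ((X.dim : ℤ) + i - j) →
      C.act p (C.act Γ z) = 0 := Iff.rfl

include hC hH

/-- Decomposition of a class on `X`. -/
lemma dec_mem {M : Type*} [AddCommGroup M] [Module ℚ M] (hX : dg C X ∈ dec 𝒲 H d X)
    (L : C.A X →ₗ[ℚ] M) (S : Submodule ℚ M) (z : C.A X)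
    (h1 : ∀ (n : ℕ) (P : 𝒱.Obj) (p : C.A (P.prod P)) (a : ℕ) (f : C.A (X.prod P))
      (g : C.A (P.prod X)), IsPart 𝒲 H n P p → (n : ℕ∞) ≤ d →
      f ∈ C.gr (X.prod P) ((X.dim : ℤ) - a) → g ∈ C.gr (P.prod X) ((P.dim : ℤ) + a) →
      L (C.act g (C.act p (C.act f z))) ∈ S)
    (h2 : ∀ (a : ℕ) (y y' : C.A X), y ∈ C.gr X ((X.dim : ℤ) - a) → y' ∈ C.gr X a →
      L (C.act (C.ext y y') z) ∈ S) : L z ∈ S := by
  have h3 : dec 𝒲 H d X ≤ S.comap (L ∘ₗ (actB C (X := X) (Y := X)).flip z) := by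
    rw [dec, Submodule.span_le]
    rintro c (⟨n, P, p, a, f, g, hP, hn, hf, hg, rfl⟩ | ⟨a, y, y', hy, hy', rfl⟩)
    · change L (C.act (C.comp f (C.comp p g)) z) ∈ S
      rw [C.act_comp, C.act_comp]
      exact h1 n P p a f g hP hn hf hg
    · exact h2 a y y' hy hy'
  have h4 := h3 hX
  change L (C.act (dg C X) z) ∈ S at h4
  rwa [act_dg] at h4

lemma act_ext_hom {a j : ℕ} {y y' z : C.A X} (hy : y ∈ C.gr X ((X.dim : ℤ) - a))
    (hz : z ∈ C.gr X j) (hcl : H.cl z = 0) : C.act (C.ext y y') z = 0 := by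
  have h1 : y * z ∈ C.gr X ((X.dim : ℤ) - a + j) := C.mul_mem hy hz
  by_cases h : a = j
  · have h2 : y * z ∈ C.gr X X.dim := by
      rw [h, sub_add_cancel] at h1
      exact h1
    have h3 : HasDegree C (y * z) 0 :=
      hasDegree_zero_of_cl H h2 (by rw [map_mul, hcl, mul_zero])
    rw [act_ext' h3, zero_smul]
  · exact act_ext_zero_of_lt h1 (by omega)

omit hH in
lemma act_ext_form {a j : ℕ} {y y' z : C.A X} (hy : y ∈ C.gr X ((X.dim : ℤ) - a))
    (hy' : y' ∈ C.gr X a) (hz : z ∈ C.gr X j) :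
    ∃ y'' ∈ C.gr X j, C.act (C.ext y y') z = y'' := by
  refine ⟨_, ?_, rfl⟩
  refine act_degc (ext_mem' hy hy') hz ?_
  ring

/-- The two claims for correspondences between parts. -/
lemma corr_zero (hcl : ∀ e : ℕ, (e : ℕ∞) ≤ d → Claims 𝒲 H e) {n n' : ℕ}
    {p : C.A (P.prod P)} {p' : C.A (P'.prod P')} (hP : IsPart 𝒲 H n P p)
    (hP' : IsPart 𝒲 H n' P' p') (hn : (n : ℕ∞) ≤ d) (hn' : (n' : ℕ∞) ≤ d)
    {θ : C.A (P.prod P')} {c : ℤ} (hθ : θ ∈ C.gr (P.prod P') c) (h1 : C.comp p θ = θ)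
    (h2 : C.comp θ p' = θ) :
    (2 * c < n + n' → θ = 0) ∧ (2 * c = n + n' → H.cl θ = 0 → θ = 0) := by
  by_cases hc : c < 0
  · rw [C.gr_neg _ _ hc] at hθ
    have := (Submodule.mem_bot _).1 hθ
    exact ⟨fun _ => this, fun _ _ => this⟩
  obtain ⟨c, rfl⟩ := Int.eq_ofNat_of_zero_le (by omega : 0 ≤ c)
  obtain ⟨E, e, φ, ψ, hE, h3, h4, h5⟩ := exists_prod hP hP'
  have hdim : (E.dim : ℤ) = ((P.prod P').dim : ℤ) := by
    rw [dim_prod, hE.piece.dim, hP.piece.dim, hP'.piece.dim]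
  have h6 : C.push φ θ ∈ C.gr E c := by
    have := C.push_mem φ hθ
    rw [hdim, sub_self, mul_zero, add_zero] at this
    exact this
  have h7 : C.act e (C.push φ θ) = C.push φ θ := by
    rw [← C.act_graph, ← C.act_comp, ← h5, C.act_comp, fixed_of_comp hP.piece.sd h1 h2]
  have h8 : C.push φ θ = 0 → θ = 0 := by
    intro h
    have h9 : C.push ψ (C.push φ θ) = θ := by rw [← C.push_comp, h3, C.push_id]
    rw [← h9, h, map_zero]
  have h9 : 2 * c ≤ n + n' → (c : ℕ∞) ≤ d := by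
    intro h
    induction d using ENat.recTopCoe with
    | top => exact le_top
    | coe m =>
      have h10 : n ≤ m := by exact_mod_cast hn
      have h11 : n' ≤ m := by exact_mod_cast hn'
      exact_mod_cast (by omega : c ≤ m)
  constructor
  · intro h
    exact h8 ((hcl c (h9 (by omega)) _ _ _ hE _ h6 h7).1 (by omega))
  · intro h h0
    refine h8 ((hcl c (h9 (by omega)) _ _ _ hE _ h6 h7).2 (by omega) ?_)
    rw [H.cl_push, h0, map_zero]

/-- Small weights: a class on a part of weight at least twice the codimension. -/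
lemma part_zero (hcl : ∀ e : ℕ, (e : ℕ∞) ≤ d → Claims 𝒲 H e) {n i : ℕ}
    {p : C.A (P.prod P)} (hP : IsPart 𝒲 H n P p) (hn : (n : ℕ∞) ≤ d) {y : C.A P}
    (hy : y ∈ C.gr P i) (h : 2 * i < n ∨ 2 * i = n ∧ H.cl y = 0) : C.act p y = 0 := by
  have hp := hP.piece
  have h1 : C.act p y ∈ C.gr P i := act_mem0 C hp.mem hy
  have hi : (i : ℕ∞) ≤ d := le_trans (by exact_mod_cast (by omega : i ≤ n)) hn
  rcases h with h | ⟨h, h0⟩
  · exact (hcl i hi n P p hP _ h1 (act_idem hp.idem y)).1 h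
  · refine (hcl i hi n P p hP _ h1 (act_idem hp.idem y)).2 h ?_
    rw [cl_act, h0]
    exact TheoryData.act_map_zero _ _

/-- **Key lemma**: correspondences which act as zero on `H^(2 j - ν)`. -/
lemma key (hcl : ∀ e : ℕ, (e : ℕ∞) ≤ d → Claims 𝒲 H e) (hX : dg C X ∈ dec 𝒲 H d X)
    {n i j ν : ℕ} {p : C.A (P.prod P)} (hP : IsPart 𝒲 H n P p) (hn : (n : ℕ∞) ≤ d)
    (hi : 2 * i = n + ν) {Γ : C.A (X.prod P)} (hΓ : Γ ∈ C.gr (X.prod P) ((X.dim : ℤ) + i - j))
    (hk : Kills H Γ (2 * j - ν)) {z : C.A X} (hz : z ∈ fil 𝒲 H d X j ν) :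
    C.act p (C.act Γ z) = 0 := by
  obtain ⟨hz1, hz2, hz3⟩ := hz
  have h0 := dec_mem hX (C.actL p ∘ₗ C.actL Γ) ⊥ z ?_ ?_
  · exact (Submodule.mem_bot _).1 h0
  · intro m P' p' a f g hP' hm hf hg
    rw [Submodule.mem_bot]
    change C.act p (C.act Γ (C.act g (C.act p' (C.act f z)))) = 0
    have hfz : C.act f z ∈ C.gr P' ((j : ℤ) - a) := act_degc hf hz1 (by ring)
    have hp := hP.piece
    have hp' := hP'.piece
    by_cases ha : j < a
    · rw [C.gr_neg P' _ (by omega)] at hfz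
      rw [(Submodule.mem_bot _).1 hfz]
      simp only [TheoryData.act_map_zero]
    obtain ⟨i', hi'⟩ := Nat.exists_eq_add_of_le (not_lt.1 ha)
    have hfz' : C.act f z ∈ C.gr P' i' := by
      have e : (j : ℤ) - a = i' := by omega
      rwa [e] at hfz
    by_cases h1 : 2 * i' < m + ν
    · rw [hz3 m i' P' p' f hP' hm h1 (by
        have e : (X.dim : ℤ) + i' - j = X.dim - a := by omega
        rw [e]
        exact hf)]
      simp only [TheoryData.act_map_zero]
    · have hgΓ : C.comp g Γ ∈ C.gr (P'.prod P) ((P'.dim : ℤ) + i - i') := by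
        refine comp_degc hg hΓ ?_
        omega
      have hθm : C.comp p' (C.comp (C.comp g Γ) p) ∈ C.gr (P'.prod P) ((P'.dim : ℤ) + i - i') := by
        refine comp_degc hp'.mem (comp_degc hgΓ hp.mem (r := (P'.dim : ℤ) + i - i') (by ring)) ?_
        ring
      have hθ := corr_zero hcl hP' hP hm hn hθm
        (by rw [← comp_assoc C, hp'.idem]) (by rw [comp_assoc C, comp_assoc C, hp.idem])
      have hdim := hp'.dim
      have h3 : C.comp p' (C.comp (C.comp g Γ) p) = 0 := by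
        by_cases h2 : 2 * i' = m + ν
        · refine hθ.2 (by omega) ?_
          apply hom_zero_of_act H
          intro b
          have h4 : H.actL (H.cl (C.comp p' (C.comp (C.comp g Γ) p))) = 0 := by
            apply ext_gr H
            intro l b hb
            rw [TheoryData.actL_apply, LinearMap.zero_apply, actH_comp]
            by_cases hl : l = m
            · have h5 : H.act (H.cl p') b ∈ H.gr P' l := by
                have h6 : p' ∈ C.gr (P'.prod P') (P'.dim + 0) := by rw [add_zero]; exact hp'.mem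
                have := actH_mem H h6 hb
                rwa [mul_zero, add_zero] at this
              have h7 : H.act (H.cl g) (H.act (H.cl p') b) ∈ H.gr X (2 * j - ν) := by
                have := actH_mem H hg h5
                have e : l + 2 * (a : ℤ) = 2 * j - ν := by omega
                rwa [e] at this
              rw [actH_comp, actH_comp, hk _ h7]
              exact TheoryData.act_map_zero _ _
            · rw [hp'.kills l hl b hb]
              exact TheoryData.act_map_zero _ _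
          exact LinearMap.congr_fun h4 b
        · exact hθ.1 (by omega)
      have h4 : C.act p (C.act Γ (C.act g (C.act p' (C.act f z)))) =
          C.act (C.comp p' (C.comp (C.comp g Γ) p)) (C.act p' (C.act f z)) := by
        rw [C.act_comp, C.act_comp, C.act_comp, act_idem hp'.idem]
      rw [h4, h3, TheoryData.act_zero]
  · intro a y y' hy hy'
    rw [Submodule.mem_bot]
    change C.act p (C.act Γ (C.act (C.ext y y') z)) = 0
    by_cases hν : 1 ≤ ν
    · rw [act_ext_hom hy hz1 (hz2 hν)]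
      simp only [TheoryData.act_map_zero]
    · obtain rfl : ν = 0 := by omega
      obtain ⟨y'', h1, h2⟩ := act_ext_form hy hy' hz1
      rw [h2]
      refine part_zero hcl hP hn (i := i) (act_degc hΓ h1 (by ring)) (Or.inr ⟨by omega, ?_⟩)
      rw [cl_act]
      refine hk _ ?_
      have := H.cl_mem h1
      have e : 2 * (j : ℤ) - (0 : ℕ) = 2 * j := by push_cast; ring
      rw [e]
      exact this

end Pool.Agent.K1H74.BB
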