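import Pool.Agent.K1H74.BB.Fil

/-!
# Existence and uniqueness of the Bloch-Beilinson filtration
-/

set_option autoImplicit false

open CategoryTheory AlgebraicGeometry

universe u v w

namespace Pool.Agent.K1H74.BB

open Pool.Agent.H914 Pool.Agent.H914.VarClass Pool.Agent.H914.VarClass.Obj Pool.Agent.W492.BB
  Pool.Agent.W550.Corr Pool.Agent.TH133 Pool.Agent.Y148.BB

set_option linter.unusedSectionVars false
set_option linter.unusedVariables false

variable {k : Type u} [Field k] {𝒱 : VarClass k}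

variable {C : TheoryData.{u, v, 0} 𝒱 ℚ} [hC : IsChowProj C] {K : Type w} [Field K]
  {H : WeilTheoryData.{u, v, w} C K} [hH : IsWeilProj H] {X Y Z W T P S A B P' : 𝒱.Obj}
  {𝒲 : 𝒱.Obj → Prop} {d : ℕ∞} {N : ∀ X : 𝒱.Obj, ℕ → Submodule ℚ (C.A X)}

include hC hH

lemma fil_anti {j ν : ℕ} : fil 𝒲 H d X j (ν + 1) ≤ fil 𝒲 H d X j ν := by
  rintro z ⟨h1, h2, h3⟩
  exact ⟨h1, fun _ => h2 (by omega), fun n i P p Γ hP hn hi hΓ =>
    h3 n i P p Γ hP hn (by omega) hΓ⟩

lemma fil_stable {j i ν : ℕ} {Γ : C.A (X.prod Y)} (hΓ : C.Deg (X.dim + i - j) Γ) {z : C.A X}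
    (hz : z ∈ fil 𝒲 H d X j ν) : C.act Γ z ∈ fil 𝒲 H d Y i ν := by
  obtain ⟨h1, h2, h3⟩ := hz
  refine ⟨act_degc hΓ h1 (by ring), fun hν => ?_, ?_⟩
  · rw [cl_act, h2 hν]
    exact TheoryData.act_map_zero _ _
  · intro n i' P p Γ' hP hn hi hΓ'
    rw [← C.act_comp Γ]
    exact h3 n i' P p _ hP hn hi (comp_degc hΓ hΓ' (by ring))

lemma fil_zero (hcl : ∀ e : ℕ, (e : ℕ∞) ≤ d → Claims 𝒲 H e) {j : ℕ} {z : C.A X} :
    z ∈ fil 𝒲 H d X j 0 ↔ C.Deg j z := by
  constructor
  · exact fun h => h.1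
  · intro h
    refine ⟨h, fun h' => by omega, ?_⟩
    intro n i P p Γ hP hn hi hΓ
    exact part_zero hcl hP hn (i := i) (act_degc hΓ h (by ring)) (Or.inl (by omega))

lemma fil_one (hcl : ∀ e : ℕ, (e : ℕ∞) ≤ d → Claims 𝒲 H e) {j : ℕ} {z : C.A X} :
    z ∈ fil 𝒲 H d X j 1 ↔ C.Deg j z ∧ H.cl z = 0 := by
  constructor
  · exact fun h => ⟨h.1, h.2.1 le_rfl⟩
  · rintro ⟨h, h0⟩
    refine ⟨h, fun _ => h0, ?_⟩
    intro n i P p Γ hP hn hi hΓ
    refine part_zero hcl hP hn (i := i) (act_degc hΓ h (by ring)) ?_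
    by_cases h1 : 2 * i < n
    · exact Or.inl h1
    · refine Or.inr ⟨by omega, ?_⟩
      rw [cl_act, h0]
      exact TheoryData.act_map_zero _ _

/-- The components of a class of `F^ν` on the twisted parts. -/
lemma comp_of_fil {j ν n a : ℕ} {p : C.A (P.prod P)} (hP : IsPart 𝒲 H n P p)
    (hn : (n : ℕ∞) ≤ d) {f : C.A (X.prod P)} (hf : f ∈ C.gr (X.prod P) ((X.dim : ℤ) - a))
    {z : C.A X} (hz : z ∈ fil 𝒲 H d X j ν) :
    C.act p (C.act f z) = 0 ∨ ∃ i : ℕ, j = a + i ∧ n + ν ≤ 2 * i ∧ C.act f z ∈ C.gr P i := by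
  obtain ⟨hz1, hz2, hz3⟩ := hz
  have hfz : C.act f z ∈ C.gr P ((j : ℤ) - a) := act_degc hf hz1 (by ring)
  by_cases ha : j < a
  · left
    rw [C.gr_neg P _ (by omega)] at hfz
    rw [(Submodule.mem_bot _).1 hfz]
    exact TheoryData.act_map_zero _ _
  obtain ⟨i', hi'⟩ := Nat.exists_eq_add_of_le (not_lt.1 ha)
  have hfz' : C.act f z ∈ C.gr P i' := by
    have e : (j : ℤ) - a = i' := by omega
    rwa [e] at hfz
  by_cases h1 : 2 * i' < n + ν
  · left
    refine hz3 n i' P p f hP hn h1 ?_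
    have e : (X.dim : ℤ) + i' - j = X.dim - a := by omega
    rw [e]
    exact hf
  · exact Or.inr ⟨i', hi', by omega, hfz'⟩

lemma fil_two_le (hN : IsAbelJacobiKernel H N) (hX : dg C X ∈ dec 𝒲 H d X) {j : ℕ} :
    fil 𝒲 H d X j 2 ≤ N X j := by
  intro z hz
  have h0 := dec_mem hX (LinearMap.id) (N X j) z ?_ ?_
  · exact h0
  · intro n P p a f g hP hn hf hg
    change C.act g (C.act p (C.act f z)) ∈ N X j
    rcases comp_of_fil hP hn hf hz with h | ⟨i, rfl, h1, h2⟩
    · rw [h, TheoryData.act_map_zero]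
      exact Submodule.zero_mem _
    · have hp := hP.piece
      have h3 : C.act p (C.act f z) ∈ N P i := by
        refine hN.kills P P i i p ?_ ?_ _ h2 ?_
        · have e : (P.dim : ℤ) + i - i = P.dim := by ring
          rw [e]
          exact hp.mem
        · exact hp.kills _ (by omega)
        · rw [cl_act, hz.2.1 (by omega)]
          exact TheoryData.act_map_zero _ _
      refine hN.stable P X i (a + i) g ?_ _ h3
      have e : (P.dim : ℤ) + (a + i : ℕ) - i = P.dim + a := by push_cast; ring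
      rw [e]
      exact hg
  · intro a y y' hy hy'
    change C.act (C.ext y y') z ∈ N X j
    rw [act_ext_hom hy hz.1 (hz.2.1 (by omega))]
    exact Submodule.zero_mem _

lemma fil_two (hN : IsAbelJacobiKernel H N)
    (hAJ : ∀ j : ℕ, 2 ≤ j → (j : ℕ∞) ≤ d → AJInjective 𝒲 H N j)
    (hcl : ∀ e : ℕ, (e : ℕ∞) ≤ d → Claims 𝒲 H e) (hX : dg C X ∈ dec 𝒲 H d X) {j : ℕ} :
    fil 𝒲 H d X j 2 = N X j := by
  apply le_antisymm (fil_two_le hN hX)
  intro z hz
  obtain ⟨h1, h0⟩ := hN.deg X j z hz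
  refine ⟨h1, fun _ => h0, ?_⟩
  intro n i P p Γ hP hn hi hΓ
  have hp := hP.piece
  have h2 : C.act Γ z ∈ C.gr P i := act_degc hΓ h1 (by ring)
  by_cases h3 : 2 * i = n + 1
  · have h4 : C.act Γ z ∈ N P i := hN.stable X P j i Γ hΓ z hz
    have h5 : C.act p (C.act Γ z) ∈ N P i := by
      refine hN.stable P P i i p ?_ _ h4
      have e : (P.dim : ℤ) + i - i = P.dim := by ring
      rw [e]
      exact hp.mem
    by_cases h6 : 2 ≤ i
    · have hid : (i : ℕ∞) ≤ d := le_trans (by exact_mod_cast (by omega : i ≤ n)) hn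
      refine hAJ i h6 hid P p ?_ _ h5 (act_idem hp.idem _)
      have e : 2 * i - 1 = n := by omega
      rw [e]
      exact hP
    · obtain rfl : i = 1 := by omega
      exact hN.abel P _ h5
  · refine part_zero hcl hP hn (i := i) h2 ?_
    by_cases h4 : 2 * i < n
    · exact Or.inl h4
    · refine Or.inr ⟨by omega, ?_⟩
      rw [cl_act, h0]
      exact TheoryData.act_map_zero _ _

lemma fil_top (hX : dg C X ∈ dec 𝒲 H d X) {j : ℕ} : fil 𝒲 H d X j (j + 1) = ⊥ := by
  rw [eq_bot_iff]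
  intro z hz
  have h0 := dec_mem hX (LinearMap.id) ⊥ z ?_ ?_
  · exact h0
  · intro n P p a f g hP hn hf hg
    rw [Submodule.mem_bot]
    change C.act g (C.act p (C.act f z)) = 0
    rcases comp_of_fil hP hn hf hz with h | ⟨i, rfl, h1, h2⟩
    · rw [h, TheoryData.act_map_zero]
    · rw [hC.gr_top P i _ h2 (by have := hP.piece.dim; omega)]
      simp only [TheoryData.act_map_zero]
  · intro a y y' hy hy'
    rw [Submodule.mem_bot]
    change C.act (C.ext y y') z = 0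
    exact act_ext_hom hy hz.1 (hz.2.1 (by omega))

lemma fil_shift (hcl : ∀ e : ℕ, (e : ℕ∞) ≤ d → Claims 𝒲 H e)
    (hX : dg C X ∈ dec 𝒲 H d X) {j i ν : ℕ} {Γ : C.A (X.prod Y)}
    (hΓ : C.Deg (X.dim + i - j) Γ) (hk : Kills H Γ (2 * j - ν)) {z : C.A X}
    (hz : z ∈ fil 𝒲 H d X j ν) : C.act Γ z ∈ fil 𝒲 H d Y i (ν + 1) := by
  obtain ⟨h1, h2, h3⟩ := fil_stable hΓ hz
  refine ⟨h1, fun _ => ?_, ?_⟩
  · by_cases hν : 1 ≤ ν
    · exact h2 hν
    · obtain rfl : ν = 0 := by omega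
      rw [cl_act]
      refine hk _ ?_
      have := H.cl_mem hz.1
      have e : 2 * (j : ℤ) - (0 : ℕ) = 2 * j := by push_cast; ring
      rw [e]
      exact this
  · intro n i' P p Γ' hP hn hi hΓ'
    by_cases h4 : 2 * i' < n + ν
    · exact h3 n i' P p Γ' hP hn h4 hΓ'
    · rw [← C.act_comp Γ]
      refine key hcl hX hP hn (i := i') (by omega) (comp_degc hΓ hΓ' (by ring)) ?_ hz
      intro b hb
      rw [actH_comp, hk b hb]
      exact TheoryData.act_map_zero _ _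

/-- **Existence** of a weak filtration. -/
theorem exists_weak (hcl : ∀ e : ℕ, (e : ℕ∞) ≤ d → Claims 𝒲 H e) :
    IsWeakOn H (BuiltFrom 𝒲 H d) (fil 𝒲 H d) :=
  { anti := fun X _ j ν => fil_anti
    zero := fun X _ j z => fil_zero hcl
    one := fun X _ j z => fil_one hcl
    top := fun X hX j => fil_top hX
    stable := fun X Y _ _ j i ν Γ hΓ z hz => fil_stable hΓ hz
    shift := fun X Y hX _ j i ν Γ hΓ hk z hz => fil_shift hcl hX hΓ hk hz }

/-- **Existence.** -/
theorem exists_bb (hN : IsAbelJacobiKernel H N) (hF : FibreProperty C)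
    (hAJ : ∀ j : ℕ, 2 ≤ j → (j : ℕ∞) ≤ d → AJInjective 𝒲 H N j) :
    IsBlochBeilinsonOn H N (BuiltFrom 𝒲 H d) (fil 𝒲 H d) := by
  have hcl : ∀ e : ℕ, (e : ℕ∞) ≤ d → Claims 𝒲 H e := fun e he => claims hN hF hAJ e he
  exact
    { anti := fun X _ j ν => fil_anti
      zero := fun X _ j z => fil_zero hcl
      one := fun X _ j z => fil_one hcl
      two := fun X hX j => fil_two hN hAJ hcl hX
      top := fun X hX j => fil_top hX
      stable := fun X Y _ _ j i ν Γ hΓ z hz => fil_stable hΓ hz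
      shift := fun X Y hX _ j i ν Γ hΓ hk z hz => fil_shift hcl hX hΓ hk hz }

omit hC hH in
lemma weak_of_bb {S : 𝒱.Obj → Prop} {F : ∀ X : 𝒱.Obj, ℕ → ℕ → Submodule ℚ (C.A X)}
    (hF : IsBlochBeilinsonOn H N S F) : IsWeakOn H S F :=
  ⟨hF.anti, hF.zero, hF.one, hF.top, hF.stable, hF.shift⟩

section converse

variable {F : ∀ X : 𝒱.Obj, ℕ → ℕ → Submodule ℚ (C.A X)}

/-- A fixed class of a part moves up in the filtration until the step given by the weight. -/
lemma moves (hF : IsWeakOn H (BuiltFrom 𝒲 H d) F) {n i : ℕ} {p : C.A (P.prod P)}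
    (hp : IsPiece H n P p) (hB : BuiltFrom 𝒲 H d P) {y : C.A P} (hy : C.act p y = y) {ν : ℕ}
    (h0 : y ∈ F P i ν) (m : ℕ) (hm : ∀ μ < m, 2 * i ≠ n + (ν + μ)) : y ∈ F P i (ν + m) := by
  induction m with
  | zero => exact h0
  | succ m ih =>
    have h1 := ih fun μ hμ => hm μ (by omega)
    rw [← hy]
    refine hF.shift P P hB hB i i (ν + m) p ?_ ?_ y h1
    · have e : (P.dim : ℤ) + i - i = P.dim := by ring
      rw [e]
      exact hp.mem
    · have := hm m (by omega)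
      exact hp.kills _ (by push_cast; omega)

lemma F_anti (hF : IsWeakOn H (BuiltFrom 𝒲 H d) F) (hX : BuiltFrom 𝒲 H d X)
    (j : ℕ) {ν μ : ℕ} (h : ν ≤ μ) : F X j μ ≤ F X j ν := by
  induction μ, h using Nat.le_induction with
  | base => exact le_rfl
  | succ μ _ ih => exact (hF.anti X hX j μ).trans ih

/-- The filtration on the Chow groups of a part. -/
lemma F_part (hF : IsWeakOn H (BuiltFrom 𝒲 H d) F) {n i : ℕ} {p : C.A (P.prod P)}
    (hp : IsPiece H n P p) (hB : BuiltFrom 𝒲 H d P) {y : C.A P} (hy : C.act p y = y) :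
    (∀ ν, 2 * i < n + ν → y ∈ F P i ν → y = 0) ∧
      (∀ ν, n + ν ≤ 2 * i → C.Deg i y → y ∈ F P i ν) := by
  constructor
  · intro ν hν h
    have h1 := moves hF hp hB hy h (i + 1) fun μ _ => by omega
    have h2 := F_anti hF hB i (show i + 1 ≤ ν + (i + 1) by omega) h1
    rw [hF.top P hB i] at h2
    exact (Submodule.mem_bot _).1 h2
  · intro ν hν h
    have h1 := moves hF hp hB hy ((hF.zero P hB i y).2 h) ν fun μ hμ => by omega
    rwa [zero_add] at h1

/-- **Converse.** -/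
theorem aj_of_bb (h𝒲 : Generated 𝒲 H) (hF : IsBlochBeilinsonOn H N (BuiltFrom 𝒲 H d) F) {j : ℕ}
    (hj : 2 ≤ j) (hjd : ((2 * j - 1 : ℕ) : ℕ∞) ≤ d) : AJInjective 𝒲 H N j := by
  intro P p hP z hz hpz
  have hB := hP.built h𝒲 hjd
  have h1 : z ∈ F P j 2 := by rw [hF.two P hB j]; exact hz
  exact (F_part (weak_of_bb hF) hP.piece hB hpz).1 2 (by omega) h1

/-- **Converse** for the weak form. -/
theorem class_of_weak (h𝒲 : Generated 𝒲 H) (hF : IsWeakOn H (BuiltFrom 𝒲 H d) F) {j : ℕ}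
    (hjd : ((2 * j : ℕ) : ℕ∞) ≤ d) : ClassInjective 𝒲 H j := by
  intro P p hP z hz h0 hpz
  have hB := hP.built h𝒲 hjd
  have h1 : z ∈ F P j 1 := (hF.one P hB j z).2 ⟨hz, h0⟩
  exact (F_part hF hP.piece hB hpz).1 1 (by omega) h1

/-- **Uniqueness.** -/
theorem eq_fil (h𝒲 : Generated 𝒲 H) (hF : IsWeakOn H (BuiltFrom 𝒲 H d) F)
    (hX : BuiltFrom 𝒲 H d X) (j ν : ℕ) : F X j ν = fil 𝒲 H d X j ν := by
  apply le_antisymm
  · intro z hz
    refine ⟨(hF.zero X hX j z).1 (F_anti hF hX j (Nat.zero_le _) hz), fun h =>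
      ((hF.one X hX j z).1 (F_anti hF hX j h hz)).2, ?_⟩
    intro n i P p Γ hP hn hi hΓ
    have hp := hP.piece
    have hB := hP.built h𝒲 hn
    have h1 : C.act Γ z ∈ F P i ν := hF.stable X P hX hB j i ν Γ hΓ z hz
    have h2 : C.act p (C.act Γ z) ∈ F P i ν := by
      refine hF.stable P P hB hB i i ν p ?_ _ h1
      have e : (P.dim : ℤ) + i - i = P.dim := by ring
      rw [e]
      exact hp.mem
    exact (F_part hF hp hB (act_idem hp.idem _)).1 ν hi h2
  · intro z hz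
    by_cases hν : ν = 0
    · subst hν
      exact (hF.zero X hX j z).2 hz.1
    have h0 := dec_mem hX (LinearMap.id) (F X j ν) z ?_ ?_
    · exact h0
    · intro n P p a f g hP hn hf hg
      change C.act g (C.act p (C.act f z)) ∈ F X j ν
      have hp := hP.piece
      have hB := hP.built h𝒲 hn
      rcases comp_of_fil hP hn hf hz with h | ⟨i, rfl, h1, h2⟩
      · rw [h, TheoryData.act_map_zero]
        exact Submodule.zero_mem _
      · have h4 := (F_part hF hp hB (act_idem hp.idem _)).2 ν h1 (act_mem0 C hp.mem h2)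
        refine hF.stable P X hB hX i (a + i) ν g ?_ _ h4
        have e : (P.dim : ℤ) + (a + i : ℕ) - i = P.dim + a := by push_cast; ring
        rw [e]
        exact hg
    · intro a y y' hy hy'
      change C.act (C.ext y y') z ∈ F X j ν
      rw [act_ext_hom hy hz.1 (hz.2.1 (by omega))]
      exact Submodule.zero_mem _

end converse

end Pool.Agent.K1H74.BB
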