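import Pool.Agent.K1H74.BB.Defs

/-!
# Formal properties of the parts
-/

set_option autoImplicit false

open CategoryTheory AlgebraicGeometry

universe u v w

namespace Pool.Agent.K1H74.BB

open Pool.Agent.H914 Pool.Agent.H914.VarClass Pool.Agent.H914.VarClass.Obj Pool.Agent.W492.BB
  Pool.Agent.W550.Corr Pool.Agent.TH133 Pool.Agent.Y148.BB

set_option linter.unusedSectionVars false
set_option linter.unusedVariables false

variable {k : Type u} [Field k] {𝒱 : VarClass k}

section chow

variable {C : TheoryData.{u, v, 0} 𝒱 ℚ} [hC : IsChowProj C] {X Y Z W T P S : 𝒱.Obj}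

include hC

lemma act_degc {Γ : C.A (X.prod Y)} {c i r : ℤ} (hΓ : Γ ∈ C.gr (X.prod Y) c) {x : C.A X}
    (hx : x ∈ C.gr X i) (h : c + i = X.dim + r) : C.act Γ x ∈ C.gr Y r := by
  have h1 : Γ ∈ C.gr (X.prod Y) (X.dim + (c - X.dim)) := by
    have : (X.dim : ℤ) + (c - X.dim) = c := by ring
    rwa [this]
  have h2 := act_mem' C h1 hx
  have : i + (c - X.dim) = r := by linarith
  rwa [this] at h2

lemma comp_degc {Γ : C.A (X.prod Y)} {Δ : C.A (Y.prod Z)} {c c' r : ℤ}
    (hΓ : Γ ∈ C.gr (X.prod Y) c) (hΔ : Δ ∈ C.gr (Y.prod Z) c') (h : c + c' = Y.dim + r) :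
    C.comp Γ Δ ∈ C.gr (X.prod Z) r := by
  have h1 : Γ ∈ C.gr (X.prod Y) (X.dim + (c - X.dim)) := by
    have : (X.dim : ℤ) + (c - X.dim) = c := by ring
    rwa [this]
  have h2 : Δ ∈ C.gr (Y.prod Z) (Y.dim + (c' - Y.dim)) := by
    have : (Y.dim : ℤ) + (c' - Y.dim) = c' := by ring
    rwa [this]
  have h3 := comp_mem C h1 h2
  have : (X.dim : ℤ) + (c - X.dim + (c' - Y.dim)) = r := by linarith
  rwa [this] at h3

lemma graph_memc (f : X ⟶ Y) : C.graph f ∈ C.gr (X.prod Y) Y.dim := by
  have h := C.push_mem (Obj.lift (𝟙 X) f) (C.one_mem X)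
  have e1 : (0 : ℤ) + 1 * (((X.prod Y).dim : ℤ) - (X.dim : ℤ)) = Y.dim := by
    rw [dim_prod]; push_cast; ring
  rwa [e1] at h

/-- A class fixed by `p ⊗ r` is fixed by both composites. -/
lemma fixed_comp {p : C.A (P.prod P)} {r : C.A (T.prod T)} (hp : C.comp p p = p)
    (hp' : tp C p = p) (hr : C.comp r r = r) {z : C.A (P.prod T)}
    (hz : C.act (tens C p r) z = z) : C.comp p z = z ∧ C.comp z r = z := by
  rw [act_tens C (ch_comm C), hp'] at hz
  constructor
  · have h1 : C.comp p (C.comp (C.comp p z) r) = C.comp (C.comp p z) r := by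
      rw [← comp_assoc, ← comp_assoc, hp]
    rw [hz] at h1
    exact h1
  · have h1 : C.comp (C.comp (C.comp p z) r) r = C.comp (C.comp p z) r := by
      rw [comp_assoc, hr]
    rw [hz] at h1
    exact h1

lemma fixed_of_comp {p : C.A (P.prod P)} {r : C.A (T.prod T)}
    (hp' : tp C p = p) {z : C.A (P.prod T)} (h1 : C.comp p z = z) (h2 : C.comp z r = z) :
    C.act (tens C p r) z = z := by
  rw [act_tens C (ch_comm C), hp', h1, h2]

lemma act_idem {p : C.A (P.prod P)} (hp : C.comp p p = p) (z : C.A P) :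
    C.act p (C.act p z) = C.act p z := by
  rw [← C.act_comp, hp]

end chow

section weil

variable {C : TheoryData.{u, v, 0} 𝒱 ℚ} [hC : IsChowProj C] {K : Type w} [Field K]
  {H : WeilTheoryData.{u, v, w} C K} [hH : IsWeilProj H] {X Y Z W T P S : 𝒱.Obj}

/-- The formal properties of the motives considered: `p` is a self-dual idempotent which acts as
zero on the cohomology outside the degree `n = dim P`. -/
structure IsPiece (H : WeilTheoryData.{u, v, w} C K) (n : ℕ) (P : 𝒱.Obj)
    (p : C.A (P.prod P)) : Prop where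
  dim : P.dim = n
  pos : 1 ≤ n
  mem : p ∈ C.gr (P.prod P) P.dim
  idem : C.comp p p = p
  sd : tp C p = p
  kills : ∀ l : ℤ, l ≠ n → Kills H p l

include hC hH

lemma IsPiece.prod {n m : ℕ} {p : C.A (P.prod P)} {r : C.A (T.prod T)} (hp : IsPiece H n P p)
    (hr : IsPiece H m T r) : IsPiece H (n + m) (P.prod T) (tens C p r) where
  dim := by rw [dim_prod, hp.dim, hr.dim]
  pos := by have := hp.pos; omega
  mem := by
    have := tens_mem C hp.mem hr.mem
    rw [dim_prod]
    push_cast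
    exact this
  idem := by rw [tens_comp', hp.idem, hr.idem]
  sd := by rw [tp_tens, hp.sd, hr.sd]
  kills := by
    intro l hl a ha
    have h1 := H.kunneth P T l ha
    clear ha
    induction h1 using Submodule.span_induction with
    | mem x hx =>
      obtain ⟨l', a, b, ha, hb, rfl⟩ := hx
      have e0 : H.pull (fst P T) a * H.pull (snd P T) b = H.ext a b := rfl
      rw [e0, actH_tens_ext]
      by_cases h2 : l' = n
      · rw [hr.kills (l - l') (by push_cast at hl; omega) b hb, TheoryData.ext_zero_right]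
      · rw [hp.kills l' h2 a ha, TheoryData.ext_zero_left]
    | zero => exact act_map_zero' H _
    | add x y _ _ hx hy => rw [act_map_add, hx, hy, add_zero]
    | smul r x _ hx => rw [act_map_smul, hx, smul_zero]
where
  act_map_zero' (H : WeilTheoryData.{u, v, w} C K) {X Y : 𝒱.Obj} (c : H.A (X.prod Y)) :
      H.act c 0 = 0 := TheoryData.act_map_zero _ _

variable {𝒲 : 𝒱.Obj → Prop}

lemma IsTranscendental.act_x {q : C.A (S.prod S)} {x : C.A S} {π : ℕ → C.A (S.prod S)}
    (hx : C.Deg 2 x) (h1 : HasDegree C x 1) (hπ : IsCK H S π) (h4 : π 4 = C.ext 1 x)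
    (h2 : C.comp (π 2) q = q) : C.act q x = 0 := by
  have e1 : C.act (π 4) x = x := by
    rw [h4, act_ext' (q := 1) (by rwa [one_mul]), one_smul]
  rw [← h2, C.act_comp, ← e1, ← C.act_comp (π 4), hπ.orth 4 2 (by norm_num), TheoryData.act_zero,
    TheoryData.act_map_zero]

lemma IsTranscendental.act_one {q : C.A (S.prod S)} {x : C.A S} {π : ℕ → C.A (S.prod S)}
    (h1 : HasDegree C x 1) (hπ : IsCK H S π) (h0 : π 0 = C.ext x 1)
    (h2 : C.comp (π 2) q = q) : C.act q 1 = 0 := by
  have e1 : C.act (π 0) (1 : C.A S) = 1 := by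
    rw [h0, act_ext' (q := 1) (by rwa [mul_one]), one_smul]
  rw [← h2, C.act_comp, ← e1, ← C.act_comp (π 0), hπ.orth 0 2 (by norm_num), TheoryData.act_zero,
    TheoryData.act_map_zero]

lemma IsFactor.piece {n : ℕ} {r : C.A (T.prod T)} (h : IsFactor 𝒲 H n T r) :
    IsPiece H n T r := by
  cases h with
  | sections n _ _ hW hd hr idem sd kills 𝒴 hf hi hp =>
    exact ⟨hd, Nat.le_add_left 1 n, hr, idem, sd, kills⟩
  | curve _ o hT hd ho h1 =>
    refine ⟨hd, le_refl _, odd_mem hd ho, odd_odd hd ho h1, tp_odd o, ?_⟩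
    intro l hl a ha
    have := curveCK_act H hd ho h1 1 l ha
    rw [if_neg hl] at this
    exact this
  | surface _ _ hS h =>
    obtain ⟨x, π, hx, hx1, hpen, hπ, h0, h4, h2, hDD, hc1, hc3⟩ := h.exists_ck
    refine ⟨h.dim_eq, by norm_num, ?_, h.idem, h.self_dual, ?_⟩
    · rw [h.dim_eq]
      exact h.deg
    · intro l hl a ha
      rw [← h2, actH_comp, hπ.act_ne 2 l a hl ha, TheoryData.act_map_zero]

lemma IsPart.piece {n : ℕ} {p : C.A (P.prod P)} (h : IsPart 𝒲 H n P p) : IsPiece H n P p := by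
  induction h with
  | factor n T r hr => exact hr.piece
  | prod n m P T p r _ hr ih => exact ih.prod hr.piece

/-- The cohomology class of a cycle on the motive `(P, p)` vanishes outside the middle degree. -/
lemma IsPiece.cl_zero {n : ℕ} {p : C.A (P.prod P)} (h : IsPiece H n P p) {j : ℕ} {z : C.A P}
    (hz : z ∈ C.gr P j) (hpz : C.act p z = z) (hj : 2 * j ≠ n) : H.cl z = 0 := by
  rw [← hpz, cl_act]
  exact h.kills (2 * j) (by exact_mod_cast hj) _ (H.cl_mem hz)

lemma IsPiece.cl_zero' {n : ℕ} {p : C.A (P.prod P)} (h : IsPiece H n P p) {j : ℤ} {z : C.A P}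
    (hz : z ∈ C.gr P j) (hj : 2 * j ≠ n) : H.cl (C.act p z) = 0 := by
  rw [cl_act]
  exact h.kills (2 * j) hj _ (H.cl_mem hz)

end weil

end Pool.Agent.K1H74.BB
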