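import Pool.Agent.K1H74.BB.Part

/-!
# The product of two parts is isomorphic to a part
-/

set_option autoImplicit false

open CategoryTheory AlgebraicGeometry

universe u v w

namespace Pool.Agent.K1H74.BB

open Pool.Agent.H914 Pool.Agent.H914.VarClass Pool.Agent.H914.VarClass.Obj Pool.Agent.W492.BB
  Pool.Agent.W550.Corr Pool.Agent.TH133 Pool.Agent.Y148.BB

set_option linter.unusedSectionVars false
set_option linter.unusedVariables false

variable {k : Type u} [Field k] {𝒱 : VarClass k}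

section chow

variable {C : TheoryData.{u, v, 0} 𝒱 ℚ} [hC : IsChowProj C]
  {X Y Z W T P S A B A' B' T' M N : 𝒱.Obj}

include hC

lemma graph_comp_left (f : X ⟶ Y) (Γ : C.A (Y.prod Z)) :
    C.comp (C.graph f) Γ = C.pull (prodMap f (𝟙 Z)) Γ := by
  have h := wg_comp f (1 : C.A X) Γ
  rw [map_one, mul_one] at h
  exact h

lemma graph_comp (f : X ⟶ Y) (g : Y ⟶ Z) :
    C.comp (C.graph f) (C.graph g) = C.graph (f ≫ g) := by
  rw [comp_graph, TheoryData.graph, TheoryData.graph, ← C.push_comp]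
  congr 1
  have e1 : Obj.lift (𝟙 X) f ≫ prodMap (𝟙 X) g = Obj.lift (𝟙 X) (f ≫ g) := by
    apply prod_ext <;> simp [prodMap, comp_lift]
  rw [e1]

lemma tens_graph (f : X ⟶ Y) (g : Z ⟶ W) :
    tens C (C.graph f) (C.graph g) = C.graph (prodMap f g) := by
  have e0 : C.ext (X := X) (Y := Z) 1 1 = 1 := by rw [TheoryData.ext, map_one, map_one, one_mul]
  rw [tens_eq C, pull_iso C (mid X Z Y W) (mid X Y Z W) (mid_mid _ _ _ _) (mid_mid _ _ _ _),
    TheoryData.graph, TheoryData.graph, TheoryData.graph, ← push_ext C, ← C.push_comp, e0]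
  congr 1
  have e1 : prodMap (Obj.lift (𝟙 X) f) (Obj.lift (𝟙 Z) g) ≫ mid X Y Z W =
      Obj.lift (𝟙 (X.prod Z)) (prodMap f g) := by
    apply prod_ext
    · apply prod_ext <;> simp [mid, prodMap, comp_lift]
    · apply prod_ext <;> simp [mid, prodMap, comp_lift]
  rw [e1]

/-- External products are associative. -/
lemma tens_assoc (Γ : C.A (A.prod A')) (Δ : C.A (B.prod B')) (Θ : C.A (T.prod T')) :
    C.comp (tens C Γ (tens C Δ Θ)) (C.graph (aJ A' B' T')) =
      C.comp (C.graph (aJ A B T)) (tens C (tens C Γ Δ) Θ) := by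
  have k1 : prodMap (𝟙 (A.prod (B.prod T))) (aJ A' B' T') ≫
      prodMap (𝟙 (A.prod (B.prod T))) (aI A' B' T') = 𝟙 _ := by
    rw [prodMap_comp, aJ_aI, Category.id_comp]
    apply prod_ext <;> simp
  have k2 : prodMap (𝟙 (A.prod (B.prod T))) (aI A' B' T') ≫
      prodMap (𝟙 (A.prod (B.prod T))) (aJ A' B' T') = 𝟙 _ := by
    rw [prodMap_comp, aI_aJ, Category.id_comp]
    apply prod_ext <;> simp
  rw [comp_graph, graph_comp_left, ← pull_iso C _ _ k2 k1]
  simp only [tens, map_mul, ← C.pull_comp]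
  rw [← mul_assoc]
  congr 1
  · congr 1
    · congr 2
      apply prod_ext <;> simp [aI, aJ, prodMap, comp_lift]
    · congr 2
      apply prod_ext <;> simp [aI, aJ, prodMap, comp_lift]
  · congr 2
    apply prod_ext <;> simp [aI, aJ, prodMap, comp_lift]

end chow

section weil

variable {C : TheoryData.{u, v, 0} 𝒱 ℚ} [hC : IsChowProj C] {K : Type w} [Field K]
  {H : WeilTheoryData.{u, v, w} C K} [hH : IsWeilProj H] {X Y Z W T P S A B : 𝒱.Obj}
  {𝒲 : 𝒱.Obj → Prop}

include hC hH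

lemma exists_prod {n m : ℕ} {a : C.A (A.prod A)} {b : C.A (B.prod B)}
    (hA : IsPart 𝒲 H n A a) (hB : IsPart 𝒲 H m B b) :
    ∃ (E : 𝒱.Obj) (e : C.A (E.prod E)) (φ : A.prod B ⟶ E) (ψ : E ⟶ A.prod B),
      IsPart 𝒲 H (n + m) E e ∧ φ ≫ ψ = 𝟙 _ ∧ ψ ≫ φ = 𝟙 _ ∧
      C.comp (tens C a b) (C.graph φ) = C.comp (C.graph φ) e := by
  induction hB with
  | factor m T r hr =>
    refine ⟨A.prod T, tens C a r, 𝟙 _, 𝟙 _, hA.prod _ _ _ _ _ _ hr, Category.id_comp _,
      Category.id_comp _, ?_⟩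
    have h1 : C.graph (𝟙 (A.prod T)) = dg C (A.prod T) := rfl
    rw [h1, comp_dg, dg_comp]
  | prod n' m' P T p r _ hr ih =>
    obtain ⟨E, e, φ, ψ, hE, h1, h2, h3⟩ := ih
    refine ⟨E.prod T, tens C e r, aJ A P T ≫ prodMap φ (𝟙 T), prodMap ψ (𝟙 T) ≫ aI A P T,
      ?_, ?_, ?_, ?_⟩
    · rw [← add_assoc]
      exact hE.prod _ _ _ _ _ _ hr
    · rw [Category.assoc, ← Category.assoc (prodMap φ (𝟙 T)), prodMap_comp, h1, Category.id_comp]
      have e1 : prodMap (𝟙 (A.prod P)) (𝟙 T) = 𝟙 _ := by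
        apply prod_ext <;> simp
      rw [e1, Category.id_comp, aJ_aI]
    · rw [Category.assoc, ← Category.assoc (aI A P T), aI_aJ, Category.id_comp, prodMap_comp, h2,
        Category.id_comp]
      apply prod_ext <;> simp
    · rw [← graph_comp, ← comp_assoc, tens_assoc, comp_assoc, comp_assoc]
      congr 1
      have h4 : C.graph (𝟙 T) = dg C T := rfl
      rw [← tens_graph, tens_comp'', h3, tens_comp'', h4, comp_dg, dg_comp]

end weil

end Pool.Agent.K1H74.BB
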